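import Mathlib

/-! Bonferroni remainders and integers without prime factors in a short logarithmic range. -/

set_option autoImplicit false

open Finset

namespace Pool.Agent.N914.MR

/-- elementary symmetric sums -/
noncomputable def es (x : ℕ → ℝ) (k : ℕ) (A : Finset ℕ) : ℝ :=
  ∑ D ∈ A.powersetCard k, ∏ p ∈ D, x p

/-- the product `∏ (1 - x_p)` -/
noncomputable def bp (x : ℕ → ℝ) (A : Finset ℕ) : ℝ := ∏ p ∈ A, (1 - x p)

/-- the absolute value of the remainder of the truncated expansion of `bp` -/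
noncomputable def rho (x : ℕ → ℝ) (K : ℕ) (A : Finset ℕ) : ℝ :=
  (-1) ^ (K + 1) * (bp x A - ∑ k ∈ range (K + 1), (-1) ^ k * es x k A)

theorem es_zero (x : ℕ → ℝ) (A : Finset ℕ) : es x 0 A = 1 := by
  simp [es]

theorem es_insert (x : ℕ → ℝ) (k : ℕ) {A : Finset ℕ} {q : ℕ} (hq : q ∉ A) :
    es x (k + 1) (insert q A) = es x (k + 1) A + x q * es x k A := by
  classical
  unfold es
  rw [Finset.powersetCard_succ_insert hq, Finset.sum_union]
  · congr 1
    rw [Finset.sum_image, Finset.mul_sum]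
    · apply Finset.sum_congr rfl
      intro D hD
      have hqD : q ∉ D := fun h => hq ((Finset.mem_powersetCard.1 hD).1 h)
      rw [Finset.prod_insert hqD]
    · intro D hD E hE h
      have hqD : q ∉ D := fun h => hq ((Finset.mem_powersetCard.1 hD).1 h)
      have hqE : q ∉ E := fun h => hq ((Finset.mem_powersetCard.1 hE).1 h)
      have := congrArg (fun F : Finset ℕ => F.erase q) h
      simpa [Finset.erase_insert hqD, Finset.erase_insert hqE] using this
  · rw [Finset.disjoint_left]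
    intro D hD hD'
    obtain ⟨E, hE, rfl⟩ := Finset.mem_image.1 hD'
    exact hq ((Finset.mem_powersetCard.1 hD).1 (Finset.mem_insert_self _ _))

theorem es_nonneg (x : ℕ → ℝ) (hx : ∀ p, 0 ≤ x p) (k : ℕ) (A : Finset ℕ) : 0 ≤ es x k A :=
  Finset.sum_nonneg fun _ _ => Finset.prod_nonneg fun p _ => hx p

theorem bp_insert (x : ℕ → ℝ) {A : Finset ℕ} {q : ℕ} (hq : q ∉ A) :
    bp x (insert q A) = (1 - x q) * bp x A := by
  unfold bp
  rw [Finset.prod_insert hq]

theorem bp_nonneg (x : ℕ → ℝ) (hx1 : ∀ p, x p ≤ 1) (A : Finset ℕ) : 0 ≤ bp x A :=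
  Finset.prod_nonneg fun p _ => by linarith [hx1 p]

theorem bp_le_one (x : ℕ → ℝ) (hx : ∀ p, 0 ≤ x p) (hx1 : ∀ p, x p ≤ 1) (A : Finset ℕ) :
    bp x A ≤ 1 :=
  Finset.prod_le_one (fun p _ => by linarith [hx1 p]) fun p _ => by linarith [hx p]

theorem rho_zero (x : ℕ → ℝ) (A : Finset ℕ) : rho x 0 A = 1 - bp x A := by
  unfold rho
  simp [es_zero]

theorem rho_zero_insert (x : ℕ → ℝ) {A : Finset ℕ} {q : ℕ} (hq : q ∉ A) :
    rho x 0 (insert q A) = rho x 0 A + x q * bp x A := by
  rw [rho_zero, rho_zero, bp_insert x hq]; ring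

theorem sum_insert_es (x : ℕ → ℝ) (K : ℕ) {A : Finset ℕ} {q : ℕ} (hq : q ∉ A) :
    ∑ k ∈ range (K + 2), (-1 : ℝ) ^ k * es x k (insert q A) =
      ∑ k ∈ range (K + 2), (-1 : ℝ) ^ k * es x k A -
        x q * ∑ k ∈ range (K + 1), (-1 : ℝ) ^ k * es x k A := by
  rw [Finset.sum_range_succ' (fun k => (-1 : ℝ) ^ k * es x k (insert q A)) (K + 1),
    Finset.sum_range_succ' (fun k => (-1 : ℝ) ^ k * es x k A) (K + 1), es_zero, es_zero,
    Finset.mul_sum]
  have : ∑ k ∈ range (K + 1), (-1 : ℝ) ^ (k + 1) * es x (k + 1) (insert q A) =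
      ∑ k ∈ range (K + 1), (-1 : ℝ) ^ (k + 1) * es x (k + 1) A -
        ∑ k ∈ range (K + 1), x q * ((-1 : ℝ) ^ k * es x k A) := by
    rw [← Finset.sum_sub_distrib]
    apply Finset.sum_congr rfl
    intro k _
    rw [es_insert x k hq]
    ring
  rw [this]
  ring

theorem rho_succ_insert (x : ℕ → ℝ) (K : ℕ) {A : Finset ℕ} {q : ℕ} (hq : q ∉ A) :
    rho x (K + 1) (insert q A) = rho x (K + 1) A + x q * rho x K A := by
  unfold rho
  rw [show K + 1 + 1 = K + 2 by ring, sum_insert_es x K hq, bp_insert x hq]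
  ring

theorem es_empty (x : ℕ → ℝ) (k : ℕ) : es x (k + 1) ∅ = 0 := by
  unfold es
  rw [Finset.powersetCard_eq_empty.2 (by simp)]
  simp

theorem rho_empty (x : ℕ → ℝ) (K : ℕ) : rho x K ∅ = 0 := by
  unfold rho
  rw [Finset.sum_range_succ']
  have : ∑ k ∈ range K, (-1 : ℝ) ^ (k + 1) * es x (k + 1) ∅ = 0 :=
    Finset.sum_eq_zero fun k _ => by rw [es_empty]; ring
  rw [this, es_zero]
  simp [bp]

theorem rho_ge (x : ℕ → ℝ) (hx : ∀ p, 0 ≤ x p) (hx1 : ∀ p, x p ≤ 1) (A : Finset ℕ) :
    ∀ K, bp x A * es x (K + 1) A ≤ rho x K A := by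
  induction A using Finset.induction_on with
  | empty =>
    intro K
    rw [es_empty, rho_empty]; simp
  | insert q A hq ih =>
    intro K
    have hb : bp x (insert q A) ≤ bp x A := by
      rw [bp_insert x hq]
      have := bp_nonneg x hx1 A
      nlinarith [hx q]
    have h1 : bp x (insert q A) * es x (K + 1) (insert q A) ≤
        bp x A * es x (K + 1) (insert q A) :=
      mul_le_mul_of_nonneg_right hb (es_nonneg x hx _ _)
    refine h1.trans ?_
    rw [es_insert x K hq, mul_add]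
    rcases K with _ | K
    · rw [rho_zero_insert x hq, es_zero]
      have := ih 0
      linarith
    · rw [rho_succ_insert x K hq]
      have h2 := ih (K + 1)
      have h3 := mul_le_mul_of_nonneg_left (ih K) (hx q)
      linarith

theorem rho_nonneg (x : ℕ → ℝ) (hx : ∀ p, 0 ≤ x p) (hx1 : ∀ p, x p ≤ 1) (A : Finset ℕ) (K : ℕ) :
    0 ≤ rho x K A :=
  (mul_nonneg (bp_nonneg x hx1 A) (es_nonneg x hx _ _)).trans (rho_ge x hx hx1 A K)

theorem pow_add_ge {s t : ℝ} (hs : 0 ≤ s) (ht : 0 ≤ t) (K : ℕ) :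
    s ^ (K + 2) + t * s ^ (K + 1) ≤ (s + t) ^ (K + 2) := by
  have h1 : s ^ (K + 1) ≤ (s + t) ^ (K + 1) := pow_le_pow_left₀ hs (by linarith) _
  calc s ^ (K + 2) + t * s ^ (K + 1) = (s + t) * s ^ (K + 1) := by ring
    _ ≤ (s + t) * (s + t) ^ (K + 1) := by gcongr
    _ = _ := by ring

theorem rho_le (x : ℕ → ℝ) (hx : ∀ p, 0 ≤ x p) (hx1 : ∀ p, x p ≤ 1) (A : Finset ℕ) :
    ∀ K, rho x K A ≤ (∑ p ∈ A, x p) ^ (K + 1) := by
  induction A using Finset.induction_on with
  | empty =>
    intro K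
    rw [rho_empty]; simp
  | insert q A hq ih =>
    intro K
    rw [Finset.sum_insert hq]
    have hs : 0 ≤ ∑ p ∈ A, x p := Finset.sum_nonneg fun p _ => hx p
    rcases K with _ | K
    · rw [rho_zero_insert x hq]
      have h1 := ih 0
      have h2 := bp_le_one x hx hx1 A
      have h3 := mul_le_mul_of_nonneg_left h2 (hx q)
      simp only [zero_add, pow_one] at h1 ⊢
      linarith
    · rw [rho_succ_insert x K hq]
      have h1 := ih (K + 1)
      have h2 := mul_le_mul_of_nonneg_left (ih K) (hx q)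
      have h3 := pow_add_ge hs (hx q) K
      rw [add_comm (x q)]
      linarith

/-- number of `h ≤ Y` without divisor in `A` -/
def NA (A : Finset ℕ) (Y : ℕ) : ℕ := ((Icc 1 Y).filter (fun h => ∀ p ∈ A, ¬ p ∣ h)).card

theorem NA_empty (Y : ℕ) : NA ∅ Y = Y := by
  simp [NA]

theorem NA_zero (A : Finset ℕ) : NA A 0 = 0 := by
  simp [NA]

theorem NA_insert {A : Finset ℕ} {q : ℕ} (hq : q ∉ A) (hA : ∀ p ∈ A, p.Prime) (hqp : q.Prime)
    (Y : ℕ) : NA (insert q A) Y + NA A (Y / q) = NA A Y := by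
  classical
  unfold NA
  have h1 : ((Icc 1 (Y / q)).filter (fun h => ∀ p ∈ A, ¬ p ∣ h)).card =
      ((Icc 1 Y).filter (fun h => (∀ p ∈ A, ¬ p ∣ h) ∧ q ∣ h)).card := by
    apply Finset.card_bij (fun h _ => q * h)
    · intro h hh
      rw [Finset.mem_filter, Finset.mem_Icc] at hh ⊢
      obtain ⟨⟨h1, h2⟩, h3⟩ := hh
      refine ⟨⟨Nat.mul_pos hqp.pos h1, ?_⟩, ?_, dvd_mul_right _ _⟩
      · calc q * h ≤ q * (Y / q) := Nat.mul_le_mul_left _ h2
          _ ≤ Y := Nat.mul_div_le _ _
      · intro p hp hpd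
        rcases (hA p hp).dvd_mul.1 hpd with h4 | h4
        · have := (Nat.prime_dvd_prime_iff_eq (hA p hp) hqp).1 h4
          exact hq (this ▸ hp)
        · exact h3 p hp h4
    · intro a _ b _ hab
      exact Nat.eq_of_mul_eq_mul_left hqp.pos hab
    · intro h hh
      rw [Finset.mem_filter, Finset.mem_Icc] at hh
      obtain ⟨⟨h1, h2⟩, h3, c, rfl⟩ := hh
      refine ⟨c, ?_, rfl⟩
      rw [Finset.mem_filter, Finset.mem_Icc]
      refine ⟨⟨Nat.pos_of_mul_pos_left h1 |> fun h => ?_, ?_⟩, fun p hp hd =>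
        h3 p hp (hd.mul_left _)⟩
      · rcases Nat.eq_zero_or_pos c with h0 | h0
        · subst h0; simp at h1
        · exact h0
      · rw [Nat.le_div_iff_mul_le hqp.pos, mul_comm]
        exact h2
  rw [h1, ← Finset.card_union_of_disjoint]
  · congr 1
    ext h
    simp only [Finset.mem_union, Finset.mem_filter, Finset.mem_insert, forall_eq_or_imp]
    constructor
    · rintro (⟨h1, h2, h3⟩ | ⟨h1, h2, h3⟩)
      · exact ⟨h1, h3⟩
      · exact ⟨h1, h2⟩
    · rintro ⟨h1, h2⟩
      by_cases h3 : q ∣ h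
      · exact Or.inr ⟨h1, h2, h3⟩
      · exact Or.inl ⟨h1, h3, h2⟩
  · rw [Finset.disjoint_left]
    intro h h1 h2
    rw [Finset.mem_filter] at h1 h2
    exact h1.2 q (Finset.mem_insert_self _ _) h2.2.2

/-- the reciprocals -/
noncomputable def rc (p : ℕ) : ℝ := min 1 (1 / (p : ℝ))

theorem rc_nonneg (p : ℕ) : 0 ≤ rc p := le_min zero_le_one (by positivity)
theorem rc_le_one (p : ℕ) : rc p ≤ 1 := min_le_left _ _
theorem rc_eq {p : ℕ} (hp : 0 < p) : rc p = 1 / (p : ℝ) := by
  unfold rc
  apply min_eq_right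
  have : (1 : ℝ) ≤ p := by exact_mod_cast hp
  rw [div_le_one (by linarith)]
  exact this

/-- **Counting integers without prime factors in `A`**, all products of `K + 1` elements of `A`
being larger than `Y`. -/
theorem count_main (w : ℕ) (A : Finset ℕ) : (∀ p ∈ A, p.Prime ∧ w < p) → ∑ p ∈ A, rc p ≤ 1 →
    ∀ K Y : ℕ, Y < (w + 1) ^ (K + 1) →
      (Y : ℝ) * rho rc K A - 2 * (((A.card : ℝ) + 1) ^ K - 1) ≤
        (-1) ^ K * ((NA A Y : ℝ) - Y * bp rc A) := by
  induction A using Finset.induction_on with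
  | empty =>
    intro _ _ K Y _
    rw [rho_empty, NA_empty]
    simp [bp]
  | insert q A hq ih =>
    intro hA hs K Y hY
    have hqp := (hA q (Finset.mem_insert_self _ _))
    have hA' : ∀ p ∈ A, p.Prime ∧ w < p := fun p hp => hA p (Finset.mem_insert_of_mem hp)
    have hs0 : 0 ≤ ∑ p ∈ A, rc p := Finset.sum_nonneg fun p _ => rc_nonneg p
    have hs' : ∑ p ∈ A, rc p ≤ 1 := by
      rw [Finset.sum_insert hq] at hs
      have := rc_nonneg q
      linarith
    have hins : (NA (insert q A) Y : ℝ) = NA A Y - NA A (Y / q) := by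
      have := NA_insert hq (fun p hp => (hA' p hp).1) hqp.1 Y
      have h2 : ((NA (insert q A) Y + NA A (Y / q) : ℕ) : ℝ) = NA A Y := by exact_mod_cast this
      push_cast at h2
      linarith
    have hrq : rc q = 1 / (q : ℝ) := rc_eq hqp.1.pos
    have hb0 := bp_nonneg rc rc_le_one A
    have hb1 := bp_le_one rc rc_nonneg rc_le_one A
    have hY0 : (0 : ℝ) ≤ Y := Nat.cast_nonneg _
    rcases K with _ | K
    · have h1 := ih hA' hs' 0 Y hY
      have h2 : Y / q = 0 := by
        apply Nat.div_eq_of_lt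
        simp only [zero_add, pow_one] at hY
        have := hqp.2
        omega
      rw [hins, h2, NA_zero, bp_insert rc hq, rho_zero_insert rc hq]
      simp only [pow_zero, sub_self, mul_zero, sub_zero, one_mul, Nat.cast_zero] at h1 ⊢
      linarith
    · have h1 := ih hA' hs' (K + 1) Y hY
      have hY' : Y / q < (w + 1) ^ (K + 1) := by
        rw [Nat.div_lt_iff_lt_mul hqp.1.pos]
        calc Y < (w + 1) ^ (K + 1 + 1) := hY
          _ = (w + 1) ^ (K + 1) * (w + 1) := by ring
          _ ≤ _ := Nat.mul_le_mul_left _ hqp.2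
      have h2 := ih hA' hs' K (Y / q) hY'
      have hr0 := rho_nonneg rc rc_nonneg rc_le_one A K
      have hr1 : rho rc K A ≤ 1 :=
        (rho_le rc rc_nonneg rc_le_one A K).trans (pow_le_one₀ hs0 hs')
      set Y' : ℕ := Y / q with hY'd
      have hq0 : (0 : ℝ) < q := by exact_mod_cast hqp.1.pos
      have e1 : (Y' : ℝ) ≤ Y * rc q := by
        rw [hrq, mul_one_div]
        exact Nat.cast_div_le
      have e2 : (Y : ℝ) * rc q < Y' + 1 := by
        rw [hrq, mul_one_div, div_lt_iff₀ hq0]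
        have := Nat.lt_mul_div_succ Y hqp.1.pos
        have h5 : (Y : ℝ) < ((q * (Y / q + 1) : ℕ) : ℝ) := by exact_mod_cast this
        push_cast at h5
        rw [hY'd]
        push_cast
        linarith
      rw [hins, bp_insert rc hq, rho_succ_insert rc K hq, Finset.card_insert_of_notMem hq]
      push_cast
      have key : (-1 : ℝ) ^ (K + 1) * ((NA A Y : ℝ) - NA A Y' - Y * ((1 - rc q) * bp rc A)) =
          (-1) ^ (K + 1) * ((NA A Y : ℝ) - Y * bp rc A) +
            ((-1) ^ K * ((NA A Y' : ℝ) - Y' * bp rc A) -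
              (-1) ^ K * ((Y * rc q - Y') * bp rc A)) := by
        ring
      rw [key]
      have e3 : (-1 : ℝ) ^ K * ((Y * rc q - Y') * bp rc A) ≤ 1 := by
        have h6 : |(-1 : ℝ) ^ K * ((Y * rc q - Y') * bp rc A)| ≤ 1 := by
          rw [abs_mul, abs_pow, abs_neg, abs_one, one_pow, one_mul, abs_mul,
            abs_of_nonneg (by linarith), abs_of_nonneg hb0]
          calc (Y * rc q - Y') * bp rc A ≤ 1 * 1 := by
                apply mul_le_mul (by linarith) hb1 hb0 (by norm_num)
            _ = 1 := by ring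
        exact (le_abs_self _).trans h6
      have e4 : (Y : ℝ) * rc q * rho rc K A - 1 ≤ Y' * rho rc K A := by
        have : (Y * rc q - Y') * rho rc K A ≤ 1 * 1 := by
          apply mul_le_mul (by linarith) hr1 hr0 (by norm_num)
        linarith
      have e5 : ((A.card : ℝ) + 1) ^ (K + 1) + ((A.card : ℝ) + 1) ^ K ≤
          ((A.card : ℝ) + 1 + 1) ^ (K + 1) := by
        have hc : (0 : ℝ) ≤ A.card := Nat.cast_nonneg _
        calc ((A.card : ℝ) + 1) ^ (K + 1) + ((A.card : ℝ) + 1) ^ K =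
            ((A.card : ℝ) + 1) ^ K * ((A.card : ℝ) + 1 + 1) := by ring
          _ ≤ ((A.card : ℝ) + 1 + 1) ^ K * ((A.card : ℝ) + 1 + 1) := by
              gcongr
              linarith
          _ = _ := by ring
      linarith

theorem pow_sub_le {u v : ℝ} (hv : 0 ≤ v) (huv : v ≤ u) (k : ℕ) :
    u ^ (k + 1) - v ^ (k + 1) ≤ (k + 1) * (u - v) * u ^ k := by
  induction k with
  | zero => simp
  | succ k ih =>
    have hu : 0 ≤ u := hv.trans huv
    have h1 : v ^ (k + 1) ≤ u ^ (k + 1) := pow_le_pow_left₀ hv huv _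
    have h2 : u ^ (k + 1 + 1) - v ^ (k + 1 + 1) =
        u * (u ^ (k + 1) - v ^ (k + 1)) + v ^ (k + 1) * (u - v) := by ring
    rw [h2]
    have h3 := mul_le_mul_of_nonneg_left ih hu
    have h4 : v ^ (k + 1) * (u - v) ≤ u ^ (k + 1) * (u - v) := by
      apply mul_le_mul_of_nonneg_right h1; linarith
    push_cast
    calc _ ≤ u * ((k + 1) * (u - v) * u ^ k) + u ^ (k + 1) * (u - v) := by linarith
      _ = _ := by ring

theorem es_ge (x : ℕ → ℝ) (hx : ∀ p, 0 ≤ x p) (xb : ℝ) (A : Finset ℕ) :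
    (∀ p ∈ A, x p ≤ xb) → 0 ≤ xb → ∀ k : ℕ,
      (max 0 (∑ p ∈ A, x p - k * xb)) ^ k / k.factorial ≤ es x k A := by
  induction A using Finset.induction_on with
  | empty =>
    intro _ hxb k
    rcases k with _ | k
    · simp [es_zero]
    · rw [es_empty, Finset.sum_empty]
      have : max 0 ((0 : ℝ) - ((k + 1 : ℕ) : ℝ) * xb) = 0 := by
        apply max_eq_left
        have : 0 ≤ ((k + 1 : ℕ) : ℝ) * xb := by positivity
        linarith
      rw [this]
      simp
  | insert q A hq ih =>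
    intro hA hxb k
    have ih' := ih (fun p hp => hA p (Finset.mem_insert_of_mem hp)) hxb
    have hxq := hA q (Finset.mem_insert_self _ _)
    rcases k with _ | k
    · simp [es_zero]
    · rw [es_insert x k hq, Finset.sum_insert hq]
      set s := ∑ p ∈ A, x p with hs
      have h1 := ih' (k + 1)
      have h2 := mul_le_mul_of_nonneg_left (ih' k) (hx q)
      have hk0 : (0 : ℝ) ≤ k := Nat.cast_nonneg _
      set v := max 0 (s - ((k + 1 : ℕ) : ℝ) * xb) with hv
      set u := max 0 (x q + s - ((k + 1 : ℕ) : ℝ) * xb) with hu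
      have hv0 : 0 ≤ v := le_max_left _ _
      have hvu : v ≤ u := by
        apply max_le_max le_rfl
        linarith [hx q]
      have huv : u - v ≤ x q := by
        have : u ≤ v + x q := by
          apply max_le
          · linarith [hx q]
          · have := le_max_right 0 (s - ((k + 1 : ℕ) : ℝ) * xb)
            linarith
        linarith
      have huk : u ≤ max 0 (s - k * xb) := by
        apply max_le_max le_rfl
        push_cast
        linarith
      have hu0 : 0 ≤ u := le_max_left _ _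
      have h3 := pow_sub_le hv0 hvu k
      have hf : (0 : ℝ) < (k + 1).factorial := by exact_mod_cast Nat.factorial_pos _
      have hfk : (0 : ℝ) < k.factorial := by exact_mod_cast Nat.factorial_pos _
      have hff : ((k + 1).factorial : ℝ) = (k + 1) * k.factorial := by
        rw [Nat.factorial_succ]; push_cast; ring
      have h4 : (k + 1) * (u - v) * u ^ k ≤ (k + 1) * (x q * (max 0 (s - k * xb)) ^ k) := by
        have : (u - v) * u ^ k ≤ x q * (max 0 (s - k * xb)) ^ k := by
          apply mul_le_mul huv (pow_le_pow_left₀ hu0 huk _) (by positivity) (hx q)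
        calc (k + 1) * (u - v) * u ^ k = (k + 1) * ((u - v) * u ^ k) := by ring
          _ ≤ _ := by gcongr
      have h5 : u ^ (k + 1) / (k + 1).factorial ≤ v ^ (k + 1) / (k + 1).factorial +
          x q * ((max 0 (s - k * xb)) ^ k / k.factorial) := by
        rw [div_le_iff₀ hf, add_mul, div_mul_cancel₀ _ hf.ne', hff]
        have h6 : x q * ((max 0 (s - k * xb)) ^ k / k.factorial) * ((k + 1) * k.factorial) =
            (k + 1) * (x q * (max 0 (s - k * xb)) ^ k) := by
          field_simp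
        rw [h6]
        linarith
      linarith

end Pool.Agent.N914.MR
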