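import Mathlib
import Pool.Agent.N914.MR.Rows

/-! Residue classes for rich and poor windows of length `(log X) ^ K`. -/

set_option autoImplicit false

open Finset Filter Topology
open Pool.Agent.H378R2
open Pool.Agent.H510R2.Maier

namespace Pool.Agent.N914.MR

theorem exists_class_le (H : Finset ℕ) (n : ℕ) (hn : 0 < n) :
    ∃ b < n, n * (H.filter (fun h => (b + h).Coprime n)).card ≤ H.card * n.totient := by
  by_contra hcon
  push Not at hcon
  have h1 : ∑ b ∈ Finset.range n, (H.filter (fun h => (b + h).Coprime n)).card = H.card * n.totient := by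
    simp only [Finset.card_filter]
    rw [Finset.sum_comm]
    rw [Finset.sum_congr rfl (g := fun _ => n.totient)]
    · rw [Finset.sum_const, smul_eq_mul]
    · intro h _
      rw [← card_shift n h hn, Finset.card_filter]
  have h2 : ∑ b ∈ Finset.range n, H.card * n.totient <
      ∑ b ∈ Finset.range n, n * (H.filter (fun h => (b + h).Coprime n)).card := by
    apply Finset.sum_lt_sum_of_nonempty
    · exact ⟨0, Finset.mem_range.2 hn⟩
    · intro b hb
      exact hcon b (Finset.mem_range.1 hb)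
  rw [← Finset.mul_sum (f := fun b => (H.filter (fun h => (b + h).Coprime n)).card), h1,
    Finset.sum_const, Finset.card_range, smul_eq_mul] at h2
  omega

/-- Choice of the residue class: `0` modulo the primes of `A`, by averaging modulo those of `B`. -/
theorem choose_class_le (A B : Finset ℕ) (hA : ∀ p ∈ A, p.Prime) (hB : ∀ p ∈ B, p.Prime)
    (hAB : Disjoint A B) (Y : ℕ) : ∃ r : ℕ,
    (VV (∏ p ∈ A ∪ B, p) r Y : ℝ) ≤
      BE B * (((Icc 1 Y).filter (fun h => ∀ p ∈ A, ¬ p ∣ h)).card : ℝ) := by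
  classical
  set WA := ∏ p ∈ A, p with hWA
  set WB := ∏ p ∈ B, p with hWB
  have hWB0 : 0 < WB := Finset.prod_pos fun p hp => (hB p hp).pos
  set H := (Icc 1 Y).filter (fun h => ∀ p ∈ A, ¬ p ∣ h) with hH
  obtain ⟨b, hb, hcard⟩ := exists_class_le H WB hWB0
  have hco := prod_coprime_of_disjoint hA hB hAB
  obtain ⟨r, hrA, hrB⟩ := Nat.chineseRemainder hco 0 b
  refine ⟨r, ?_⟩
  have h1 : (Icc 1 Y).filter (fun h => (r + h).Coprime (∏ p ∈ A ∪ B, p)) ⊆
      H.filter (fun h => (b + h).Coprime WB) := by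
    intro h hh
    rw [Finset.mem_filter, Finset.prod_union hAB] at hh
    obtain ⟨hh1, hh2⟩ := hh
    have hcA : (r + h).Coprime WA := Nat.Coprime.coprime_mul_right_right hh2
    have hcB : (r + h).Coprime WB := Nat.Coprime.coprime_mul_left_right hh2
    rw [Finset.mem_filter, hH, Finset.mem_filter]
    refine ⟨⟨hh1, fun p hp hd => ?_⟩, ?_⟩
    · have h3 : p ∣ WA := Finset.dvd_prod_of_mem _ hp
      have h2 : p ∣ r := h3.trans ((Nat.modEq_zero_iff_dvd).1 hrA)
      have h4 : p ∣ r + h := dvd_add h2 hd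
      have h5 := Nat.dvd_gcd h4 h3
      rw [hcA] at h5
      exact (hA p hp).one_lt.ne' (Nat.dvd_one.1 h5)
    · have h4 : r + h ≡ b + h [MOD WB] := Nat.ModEq.add_right h hrB
      have h5 := h4.gcd_eq
      rw [Nat.Coprime, ← h5]
      exact hcB
  have h2 : VV (∏ p ∈ A ∪ B, p) r Y ≤ (H.filter (fun h => (b + h).Coprime WB)).card := by
    unfold VV
    exact Finset.card_le_card h1
  have h3 : (WB : ℝ) * (H.filter (fun h => (b + h).Coprime WB)).card ≤ (H.card : ℝ) * WB.totient := by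
    exact_mod_cast hcard
  rw [totient_prod B hB] at h3
  have h4 : (VV (∏ p ∈ A ∪ B, p) r Y : ℝ) ≤ ((H.filter (fun h => (b + h).Coprime WB)).card : ℝ) := by
    exact_mod_cast h2
  refine h4.trans ?_
  have hW0 : (0 : ℝ) < WB := by exact_mod_cast hWB0
  have h6 : (WB : ℝ) * ((H.filter (fun h => (b + h).Coprime WB)).card : ℝ) ≤
      WB * (BE B * H.card) := by
    refine h3.trans (le_of_eq ?_)
    rw [← hWB]
    ring
  exact le_of_mul_le_mul_left h6 hW0

/-- the size of the deviation -/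
noncomputable def kap (K : ℕ) : ℝ := (1 / (4 * ((K : ℝ) + 1))) ^ (K + 1) / (K + 1).factorial

theorem kap_pos (K : ℕ) : 0 < kap K := by
  unfold kap
  have : (0 : ℝ) < (K + 1).factorial := by exact_mod_cast Nat.factorial_pos _
  positivity

theorem kap_le_one (K : ℕ) : kap K ≤ 1 := by
  unfold kap
  have h1 : (1 : ℝ) ≤ (K + 1).factorial := by exact_mod_cast Nat.factorial_pos _
  have h2 : (1 / (4 * ((K : ℝ) + 1))) ^ (K + 1) ≤ 1 := by
    apply pow_le_one₀ (by positivity)
    rw [div_le_one (by positivity)]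
    have : (0 : ℝ) ≤ K := Nat.cast_nonneg _
    linarith
  rw [div_le_one (by linarith)]
  linarith

/-- the exponent of the lower end of the range of the primes -/
noncomputable def al (K : ℕ) : ℝ := (K : ℝ) / (K + 1)

theorem bp_rc_eq {A : Finset ℕ} (hA : ∀ p ∈ A, p.Prime) : bp rc A = BE A := by
  unfold bp BE
  apply Finset.prod_congr rfl
  intro p hp
  rw [rc_eq (hA p hp).pos]

theorem sum_rc_eq {A : Finset ℕ} (hA : ∀ p ∈ A, p.Prime) : ∑ p ∈ A, rc p = ∑ p ∈ A, (1 : ℝ) / p :=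
  Finset.sum_congr rfl fun p hp => rc_eq (hA p hp).pos

/-- the sum of the reciprocals of the large primes of the modulus -/
theorem sum_A_ev (K : ℕ) (hK : 1 ≤ K) (D : ℝ) (hD : 1000 ≤ D) : ∀ᶠ X : ℝ in atTop,
    ∀ (ps : ℕ) (S : Finset ℕ), GoodS X S →
      1 / (2 * ((K : ℝ) + 1)) ≤ ∑ p ∈ (PD X D S ps).filter
        (fun p => ⌊(Real.log X) ^ (al K)⌋₊ < p), (1 : ℝ) / p ∧
      ∑ p ∈ (PD X D S ps).filter
        (fun p => ⌊(Real.log X) ^ (al K)⌋₊ < p), (1 : ℝ) / p ≤ 7 / 10 := by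
  have hK1 : (1 : ℝ) ≤ K := by exact_mod_cast hK
  have hK0 : (0 : ℝ) < (K : ℝ) + 1 := by linarith
  have hD0 : 0 < D := by linarith
  have hal0 : 0 < al K := by unfold al; positivity
  have hal1 : al K < 1 := by
    unfold al; rw [div_lt_one hK0]; linarith
  have t1 := R1_cell (1 / D) 1 1 (al K) (by positivity) one_pos one_pos hal0
  have hinv : (1 : ℝ) / al K = 1 + 1 / K := by
    unfold al; field_simp
  have hup : Real.log (1 / al K) < 7 / 10 := by
    have h1 : (1 : ℝ) / al K ≤ 2 := by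
      rw [hinv]
      have : (1 : ℝ) / K ≤ 1 := by rw [div_le_one (by linarith)]; exact hK1
      linarith
    have h2 : Real.log (1 / al K) ≤ Real.log 2 := Real.log_le_log (by positivity) h1
    have := Real.log_two_lt_d9
    linarith
  have hlo : 1 / ((K : ℝ) + 1) ≤ Real.log (1 / al K) := by
    have h1 := Real.one_sub_inv_le_log_of_pos (show (0 : ℝ) < 1 / al K by positivity)
    have h2 : 1 - (1 / al K)⁻¹ = 1 / ((K : ℝ) + 1) := by
      unfold al; field_simp; ring
    linarith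
  have hlo2 : 3 / 4 * (1 / ((K : ℝ) + 1)) < Real.log (1 / al K) := by
    have : 0 < 1 / ((K : ℝ) + 1) := by positivity
    linarith
  have a1 : Tendsto (fun L : ℝ => 6 / (Real.log L) ^ 2) atTop (𝓝 0) := by
    have : Tendsto (fun L : ℝ => (Real.log L) ^ 2) atTop atTop :=
      (tendsto_pow_atTop (by norm_num)).comp Real.tendsto_log_atTop
    exact this.const_div_atTop 6
  have a2 : Tendsto (fun L : ℝ => 1 / (⌊L ^ (al K)⌋₊ : ℝ)) atTop (𝓝 0) := by
    have : Tendsto (fun L : ℝ => (⌊L ^ (al K)⌋₊ : ℝ)) atTop atTop :=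
      tendsto_natCast_atTop_atTop.comp (tendsto_nat_floor_atTop.comp (tendsto_rpow_atTop hal0))
    exact this.const_div_atTop 1
  have hpos : (0 : ℝ) < 1 / (8 * ((K : ℝ) + 1)) := by positivity
  have e1 := t1.eventually_lt_const hup
  have e2 := t1.eventually_const_lt hlo2
  have e3 := a1.eventually_lt_const hpos
  have e4 := a2.eventually_lt_const hpos
  have e5 : ∀ᶠ L : ℝ in atTop, D ≤ L ^ (1 - al K) :=
    (tendsto_rpow_atTop (by linarith)).eventually_ge_atTop _
  have e6 : ∀ᶠ L : ℝ in atTop, 1 ≤ ⌊L ^ (al K)⌋₊ :=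
    (tendsto_nat_floor_atTop.comp (tendsto_rpow_atTop hal0)).eventually_ge_atTop 1
  have ev := (((((e1.and e2).and e3).and e4).and e5).and e6).and (eventually_gt_atTop (1 : ℝ))
  filter_upwards [Real.tendsto_log_atTop.eventually ev, eventually_ge_atTop (1 : ℝ)] with X hX hX1
  obtain ⟨⟨⟨⟨⟨⟨h1, h2⟩, h3⟩, h4⟩, h5⟩, h6⟩, h7⟩ := hX
  intro ps S hS
  set L := Real.log X with hL
  have hL0 : 0 < L := by linarith
  simp only [one_mul, Real.rpow_one] at h1 h2
  rw [show (1 : ℝ) / D * L = L / D by ring] at h1 h2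
  set w := ⌊L ^ (al K)⌋₊ with hw
  have hwz : w ≤ ⌊L / D⌋₊ := by
    apply Nat.floor_le_floor
    rw [le_div_iff₀ hD0]
    calc L ^ (al K) * D ≤ L ^ (al K) * L ^ (1 - al K) := by gcongr
      _ = L := by
          rw [← Real.rpow_add hL0]
          norm_num
  have hPI := sum_PI_inv hwz
  set A := (PD X D S ps).filter (fun p => w < p) with hA
  have hAsub : A ⊆ PI w ⌊L / D⌋₊ := by
    intro p hp
    rw [hA, Finset.mem_filter, mem_PD hD hX1] at hp
    exact mem_PI.2 ⟨⟨hp.2, hp.1.1⟩, hp.1.2.1⟩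
  have hup2 : ∑ p ∈ A, (1 : ℝ) / p ≤ ∑ p ∈ PI w ⌊L / D⌋₊, (1 : ℝ) / p :=
    Finset.sum_le_sum_of_subset_of_nonneg hAsub fun _ _ _ => by positivity
  refine ⟨?_, by linarith⟩
  -- lower bound
  classical
  have hcover : PI w ⌊L / D⌋₊ ⊆ A ∪ (S ∪ ({ps} : Finset ℕ).filter (fun p => w < p)) := by
    intro p hp
    have h8 := mem_PI.1 hp
    rw [Finset.mem_union, Finset.mem_union]
    by_cases hpS : p ∈ S
    · exact Or.inr (Or.inl hpS)
    · by_cases hpp : p = ps
      · right; right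
        rw [Finset.mem_filter, Finset.mem_singleton]
        exact ⟨hpp, h8.1.1⟩
      · left
        rw [hA, Finset.mem_filter, mem_PD hD hX1]
        exact ⟨⟨h8.1.2, h8.2, hpS, hpp⟩, h8.1.1⟩
  have hle : ∑ p ∈ PI w ⌊L / D⌋₊, (1 : ℝ) / p ≤ ∑ p ∈ A, (1 : ℝ) / p +
      (∑ p ∈ S, (1 : ℝ) / p + ∑ p ∈ ({ps} : Finset ℕ).filter (fun p => w < p), (1 : ℝ) / p) := by
    refine (Finset.sum_le_sum_of_subset_of_nonneg hcover fun _ _ _ => by positivity).trans ?_
    have g1 := Finset.sum_union_inter (s₁ := A)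
      (s₂ := S ∪ ({ps} : Finset ℕ).filter (fun p => w < p)) (f := fun p : ℕ => (1 : ℝ) / p)
    have g2 := Finset.sum_union_inter (s₁ := S)
      (s₂ := ({ps} : Finset ℕ).filter (fun p => w < p)) (f := fun p : ℕ => (1 : ℝ) / p)
    have g3 : 0 ≤ ∑ p ∈ A ∩ (S ∪ ({ps} : Finset ℕ).filter (fun p => w < p)), (1 : ℝ) / p :=
      Finset.sum_nonneg fun _ _ => by positivity
    have g4 : 0 ≤ ∑ p ∈ S ∩ ({ps} : Finset ℕ).filter (fun p => w < p), (1 : ℝ) / p :=
      Finset.sum_nonneg fun _ _ => by positivity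
    linarith
  have hw0 : (0 : ℝ) < w := by exact_mod_cast h6
  have hps : ∑ p ∈ ({ps} : Finset ℕ).filter (fun p => w < p), (1 : ℝ) / p ≤ 1 / (w : ℝ) := by
    by_cases h8 : w < ps
    · have h9 : ({ps} : Finset ℕ).filter (fun p => w < p) = {ps} := by
        rw [Finset.filter_eq_self]
        intro x hx
        rw [Finset.mem_singleton.1 hx]; exact h8
      rw [h9, Finset.sum_singleton]
      have : (w : ℝ) ≤ ps := by exact_mod_cast h8.le
      gcongr
    · have h9 : ({ps} : Finset ℕ).filter (fun p => w < p) = ∅ := by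
        rw [Finset.filter_eq_empty_iff]
        intro x hx
        rw [Finset.mem_singleton.1 hx]; exact h8
      rw [h9, Finset.sum_empty]
      positivity
  have hS2 := hS.2
  rw [← hL] at hS2
  have hfin : 1 / (2 * ((K : ℝ) + 1)) = 3 / 4 * (1 / ((K : ℝ) + 1)) - 1 / (8 * ((K : ℝ) + 1)) -
      1 / (8 * ((K : ℝ) + 1)) := by
    field_simp; ring
  rw [hfin]
  linarith

/-- the length of the windows -/
noncomputable def YK (K : ℕ) (L : ℝ) : ℕ := ⌊L ^ K⌋₊

theorem YK_le (K : ℕ) {L : ℝ} (hL : 0 ≤ L) : (YK K L : ℝ) ≤ L ^ K := Nat.floor_le (by positivity)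

theorem YK_ge (K : ℕ) {L : ℝ} (hL : 1 ≤ L) : L ^ K / 2 ≤ YK K L := by
  have h1 : L ^ K < (YK K L : ℝ) + 1 := Nat.lt_floor_add_one _
  have h2 : 1 ≤ L ^ K := one_le_pow₀ hL
  have h3 : (1 : ℝ) ≤ YK K L := by
    have : 1 ≤ YK K L := Nat.le_floor (by exact_mod_cast h2)
    exact_mod_cast this
  linarith

/-- few primes up to `L` -/
theorem primes_few (ε : ℝ) (hε : 0 < ε) : ∀ᶠ L : ℝ in atTop,
    (Nat.primeCounting ⌊L⌋₊ : ℝ) + 1 ≤ ε * L := by
  have h1 := (tendsto_nat_floor_atTop (α := ℝ)).eventually (pi_ev 1 one_pos)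
  have h2 : ∀ᶠ L : ℝ in atTop, 8 / ε ≤ Real.log L := Real.tendsto_log_atTop.eventually_ge_atTop _
  have h3 : ∀ᶠ L : ℝ in atTop, 4 / ε ≤ L := eventually_ge_atTop _
  filter_upwards [h1, h2, h3, eventually_ge_atTop (4 : ℝ)] with L h1 h2 h3 h4
  have hfl : L - 1 < (⌊L⌋₊ : ℝ) := by
    have := Nat.lt_floor_add_one L
    linarith
  have hfl2 : (⌊L⌋₊ : ℝ) ≤ L := Nat.floor_le (by linarith)
  have hlogf : Real.log L / 2 ≤ Real.log ⌊L⌋₊ := by
    have h5 : Real.log L / 2 = Real.log (Real.sqrt L) := by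
      rw [Real.log_sqrt (by linarith)]
    rw [h5]
    apply Real.log_le_log (Real.sqrt_pos.2 (by linarith))
    have h6 : Real.sqrt L ≤ L / 2 := by
      rw [Real.sqrt_le_left (by linarith)]
      nlinarith
    linarith
  have h8 : 4 / ε ≤ Real.log ⌊L⌋₊ := by
    have : 8 / ε / 2 ≤ Real.log L / 2 := by linarith
    have h9 : 8 / ε / 2 = 4 / ε := by ring
    linarith
  have h9 : 0 < 4 / ε := by positivity
  have h10 : (1 + 1) * ((⌊L⌋₊ : ℝ) / Real.log ⌊L⌋₊) ≤ ε / 2 * L := by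
    have h11 : (⌊L⌋₊ : ℝ) / Real.log ⌊L⌋₊ ≤ L / (4 / ε) := by
      apply div_le_div₀ (by linarith) hfl2 h9 h8
    calc (1 + 1) * ((⌊L⌋₊ : ℝ) / Real.log ⌊L⌋₊) ≤ (1 + 1) * (L / (4 / ε)) := by gcongr
      _ = ε / 2 * L := by field_simp; ring
  have h11 : 1 ≤ ε / 4 * L := by
    rw [div_le_iff₀ hε] at h3
    linarith
  nlinarith

set_option maxHeartbeats 2000000 in
/-- **the sifted windows**: number of integers without large prime factor of the modulus -/
theorem sift_ev (K : ℕ) (hK : 1 ≤ K) (D : ℝ) (hD : 1000 ≤ D) : ∀ᶠ X : ℝ in atTop,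
    ∀ (ps : ℕ) (S : Finset ℕ), GoodS X S →
      3 / 4 * kap K * (YK K (Real.log X) * BE ((PD X D S ps).filter
        (fun p => ⌊(Real.log X) ^ (al K)⌋₊ < p))) ≤
      (-1) ^ K * ((NA ((PD X D S ps).filter
        (fun p => ⌊(Real.log X) ^ (al K)⌋₊ < p)) (YK K (Real.log X)) : ℝ) -
        YK K (Real.log X) * BE ((PD X D S ps).filter
        (fun p => ⌊(Real.log X) ^ (al K)⌋₊ < p))) := by
  have hK1 : (1 : ℝ) ≤ K := by exact_mod_cast hK
  have hK0 : (0 : ℝ) < (K : ℝ) + 1 := by linarith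
  have hD0 : 0 < D := by linarith
  have hal0 : 0 < al K := by unfold al; positivity
  have hkap := kap_pos K
  have hkap1 := kap_le_one K
  have a2 : Tendsto (fun L : ℝ => 1 / (⌊L ^ (al K)⌋₊ : ℝ)) atTop (𝓝 0) := by
    have : Tendsto (fun L : ℝ => (⌊L ^ (al K)⌋₊ : ℝ)) atTop atTop :=
      tendsto_natCast_atTop_atTop.comp (tendsto_nat_floor_atTop.comp (tendsto_rpow_atTop hal0))
    exact this.const_div_atTop 1
  have hpos : (0 : ℝ) < 1 / (4 * ((K : ℝ) + 1) ^ 2) := by positivity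
  have e4 := a2.eventually_lt_const hpos
  have e5 := primes_few (kap K / 100) (by positivity)
  have ev := (e4.and e5).and (eventually_gt_atTop (1 : ℝ))
  filter_upwards [Real.tendsto_log_atTop.eventually ev, eventually_ge_atTop (1 : ℝ),
    sum_A_ev K hK D hD] with X hX hX1 hsum
  obtain ⟨⟨h4, h5⟩, h7⟩ := hX
  intro ps S hS
  obtain ⟨s1, s2⟩ := hsum ps S hS
  set L := Real.log X with hL
  have hL0 : 0 < L := by linarith
  set w := ⌊L ^ (al K)⌋₊ with hw
  set A := (PD X D S ps).filter (fun p => w < p) with hA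
  have hAp : ∀ p ∈ A, p.Prime ∧ w < p := fun p hp =>
    ⟨PD_prime (Finset.mem_filter.1 hp).1, (Finset.mem_filter.1 hp).2⟩
  have hAp' : ∀ p ∈ A, p.Prime := fun p hp => (hAp p hp).1
  set Y := YK K L with hYd
  have hYle : (Y : ℝ) ≤ L ^ K := YK_le K hL0.le
  have hYge : L ^ K / 2 ≤ Y := YK_ge K h7.le
  have hwlt : L ^ (al K) < (w : ℝ) + 1 := Nat.lt_floor_add_one _
  have hYlt : Y < (w + 1) ^ (K + 1) := by
    have h8 : (L ^ (al K)) ^ (K + 1) = L ^ K := by
      rw [← Real.rpow_natCast, ← Real.rpow_mul hL0.le, ← Real.rpow_natCast L K]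
      congr 1
      unfold al
      push_cast
      field_simp
    have h9 : (Y : ℝ) < (((w + 1) ^ (K + 1) : ℕ) : ℝ) := by
      push_cast
      calc (Y : ℝ) ≤ L ^ K := hYle
        _ = (L ^ (al K)) ^ (K + 1) := h8.symm
        _ < ((w : ℝ) + 1) ^ (K + 1) := by
            apply pow_lt_pow_left₀ hwlt (by positivity) (by omega)
    exact_mod_cast h9
  have hrs := sum_rc_eq hAp'
  have hmain := count_main w A hAp (by rw [hrs]; linarith) K Y hYlt
  rw [bp_rc_eq hAp'] at hmain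
  have hBA0 : 0 < BE A := BE_pos hAp'
  -- lower bound for `BE A`
  have hBA : 3 / 10 ≤ BE A := by
    have h8 := weier A (fun p => 1 / (p : ℝ)) (fun i _ => by positivity) (fun i hi => by
      have h9 : (1 : ℝ) ≤ i := by exact_mod_cast (hAp' i hi).one_lt.le
      rw [div_le_one (by linarith)]
      exact h9)
    unfold BE
    linarith
  -- lower bound for `rho`
  have hw0 : 0 ≤ 1 / (w : ℝ) := by positivity
  have hxb : ∀ p ∈ A, rc p ≤ 1 / (w : ℝ) := by
    intro p hp
    rw [rc_eq (hAp' p hp).pos]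
    rcases Nat.eq_zero_or_pos w with h0 | h0
    · exfalso
      rw [h0] at hwlt
      have h10 : 1 ≤ L ^ (al K) := Real.one_le_rpow h7.le hal0.le
      simp only [Nat.cast_zero, zero_add] at hwlt
      linarith
    · have h8 : (0 : ℝ) < w := by exact_mod_cast h0
      have h9 : (w : ℝ) ≤ p := by exact_mod_cast (hAp p hp).2.le
      gcongr
  have hes := es_ge rc rc_nonneg (1 / (w : ℝ)) A hxb hw0 (K + 1)
  rw [hrs] at hes
  have hes2 : kap K ≤ es rc (K + 1) A := by
    refine le_trans ?_ hes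
    unfold kap
    have hf : (0 : ℝ) < (K + 1).factorial := by exact_mod_cast Nat.factorial_pos _
    rw [div_le_div_iff_of_pos_right hf]
    apply pow_le_pow_left₀ (by positivity)
    refine le_trans ?_ (le_max_right _ _)
    have h8 : ((K + 1 : ℕ) : ℝ) * (1 / (w : ℝ)) ≤ 1 / (4 * ((K : ℝ) + 1)) := by
      push_cast
      calc ((K : ℝ) + 1) * (1 / (w : ℝ)) ≤ ((K : ℝ) + 1) * (1 / (4 * ((K : ℝ) + 1) ^ 2)) := by
            gcongr
        _ = _ := by field_simp
    have h9 : 1 / (4 * ((K : ℝ) + 1)) = 1 / (2 * ((K : ℝ) + 1)) - 1 / (4 * ((K : ℝ) + 1)) := by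
      field_simp; ring
    rw [h9]
    linarith
  have hrho : BE A * kap K ≤ rho rc K A := by
    have h8 := rho_ge rc rc_nonneg rc_le_one A K
    rw [bp_rc_eq hAp'] at h8
    refine le_trans ?_ h8
    gcongr
  -- the error term
  have hcard : ((A.card : ℝ) + 1) ≤ kap K / 100 * L := by
    refine le_trans ?_ h5
    have h8 : A.card ≤ Nat.primeCounting ⌊L⌋₊ := by
      rw [Nat.primeCounting, Nat.primeCounting', Nat.count_eq_card_filter_range]
      apply Finset.card_le_card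
      intro p hp
      rw [Finset.mem_filter, Finset.mem_range]
      refine ⟨?_, hAp' p hp⟩
      have h9 := ((mem_PD hD hX1).1 (Finset.mem_filter.1 hp).1).1
      rw [← hL] at h9
      have h10 : ⌊L / D⌋₊ ≤ ⌊L⌋₊ := by
        apply Nat.floor_le_floor
        rw [div_le_iff₀ hD0]
        nlinarith
      omega
    have h9 : (A.card : ℝ) ≤ Nat.primeCounting ⌊L⌋₊ := by exact_mod_cast h8
    linarith
  have hLK : 0 < L ^ K := by positivity
  have herr : 2 * (((A.card : ℝ) + 1) ^ K - 1) ≤ kap K / 4 * (Y * BE A) := by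
    have hc : (0 : ℝ) ≤ A.card := Nat.cast_nonneg _
    have h8 : ((A.card : ℝ) + 1) ^ K ≤ (kap K / 100 * L) ^ K :=
      pow_le_pow_left₀ (by linarith) hcard _
    have h9 : (kap K / 100) ^ K ≤ kap K / 100 := by
      calc (kap K / 100) ^ K ≤ (kap K / 100) ^ 1 :=
            pow_le_pow_of_le_one (by positivity) (by linarith) hK
        _ = _ := pow_one _
    rw [mul_pow] at h8
    have h10 : (kap K / 100) ^ K * L ^ K ≤ kap K / 100 * L ^ K := by gcongr
    have h11 : kap K / 4 * (L ^ K / 2 * (3 / 10)) ≤ kap K / 4 * (Y * BE A) := by gcongr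
    have h12 : 0 < kap K * L ^ K := by positivity
    nlinarith
  have hYB : 0 ≤ (Y : ℝ) * BE A := by positivity
  have hr2 : (Y : ℝ) * (BE A * kap K) ≤ Y * rho rc K A := by gcongr
  nlinarith

end Pool.Agent.N914.MR
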