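import Mathlib
import Pool.Agent.N914.MR.Cls

/-! Rows with rich and poor windows of length `(log X) ^ K`. -/

set_option autoImplicit false

open Finset Filter Topology
open Pool.Agent.H378R2
open Pool.Agent.H510R2.Maier

namespace Pool.Agent.N914.MR

/-- `80 / BE` is small -/
theorem eighty (K : ℕ) (hK : 1 ≤ K) (D : ℝ) (hD : 1000 ≤ D) : ∀ᶠ X : ℝ in atTop,
    ∀ (ps : ℕ) (S : Finset ℕ), 80 / BE (PD X D S ps) ≤ kap K / 8 * YK K (Real.log X) := by
  set E := Real.exp Real.eulerMascheroniConstant with hE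
  have hE0 : 0 < E := Real.exp_pos _
  have hkap := kap_pos K
  have e2 := Pool.Agent.H510R2.Maier.G.QQ_ev D hD 1 one_pos
  have e3 : ∀ᶠ L : ℝ in atTop, 80 * (E + 1) * Real.log L ≤ kap K / 16 * L := by
    have h1 := Real.isLittleO_log_id_atTop.bound (show (0 : ℝ) < kap K / 16 / (80 * (E + 1)) by positivity)
    filter_upwards [h1, eventually_gt_atTop (1 : ℝ)] with L h2 h3
    rw [Real.norm_of_nonneg (Real.log_pos h3).le, id, Real.norm_of_nonneg (by linarith)] at h2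
    calc 80 * (E + 1) * Real.log L ≤ 80 * (E + 1) * (kap K / 16 / (80 * (E + 1)) * L) := by gcongr
      _ = _ := by field_simp
  have ev := (e2.and e3).and (eventually_gt_atTop (1 : ℝ))
  filter_upwards [Real.tendsto_log_atTop.eventually ev, eventually_ge_atTop (1 : ℝ)] with X hX hX1
  obtain ⟨⟨h2, h3⟩, h4⟩ := hX
  intro ps S
  set L := Real.log X with hL
  have hPp : ∀ p ∈ PD X D S ps, p.Prime := fun p hp => PD_prime hp
  have hB0 : 0 < BE (PD X D S ps) := BE_pos hPp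
  have hQ : QQ ⌊L / D⌋₊ ≤ BE (PD X D S ps) := Pool.Agent.H510R2.Maier.G.QQ_le_BE D hD X hX1 S ps
  have hinv : (BE (PD X D S ps))⁻¹ ≤ (E + 1) * Real.log L := (inv_anti₀ (QQ_pos _) hQ).trans h2
  have hY := YK_ge K h4.le
  have hLK : L ≤ L ^ K := by
    calc L = L ^ 1 := (pow_one L).symm
      _ ≤ L ^ K := pow_le_pow_right₀ h4.le hK
  calc 80 / BE (PD X D S ps) = 80 * (BE (PD X D S ps))⁻¹ := by rw [div_eq_mul_inv]
    _ ≤ 80 * ((E + 1) * Real.log L) := by gcongr
    _ = 80 * (E + 1) * Real.log L := by ring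
    _ ≤ kap K / 16 * L := h3
    _ ≤ kap K / 16 * L ^ K := by gcongr
    _ = kap K / 8 * (L ^ K / 2) := by ring
    _ ≤ _ := by gcongr

theorem split_PD (X D : ℝ) (S : Finset ℕ) (ps w : ℕ) :
    (PD X D S ps).filter (fun p => w < p) ∪ (PD X D S ps).filter (fun p => ¬ w < p) = PD X D S ps ∧
    Disjoint ((PD X D S ps).filter (fun p => w < p)) ((PD X D S ps).filter (fun p => ¬ w < p)) ∧
    BE (PD X D S ps) = BE ((PD X D S ps).filter (fun p => w < p)) *
      BE ((PD X D S ps).filter (fun p => ¬ w < p)) := by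
  classical
  have h1 := Finset.filter_union_filter_not_eq (fun p => w < p) (PD X D S ps)
  have h2 : Disjoint ((PD X D S ps).filter (fun p => w < p))
    ((PD X D S ps).filter (fun p => ¬ w < p)) := Finset.disjoint_filter_filter_not _ _ _
  refine ⟨h1, h2, ?_⟩
  unfold BE
  rw [← Finset.prod_union h2, h1]

theorem side_rich (K : ℕ) (hK : 1 ≤ K) (hev : Even K) (D : ℝ) (hD : 1000 ≤ D) : ∀ᶠ X : ℝ in atTop,
    ∀ (ps : ℕ) (S : Finset ℕ), GoodS X S → ∃ r : ℕ,
      (1 + kap K / 2) * (YK K (Real.log X) : ℝ) ≤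
        ((VV (WD X D S ps) r (YK K (Real.log X)) : ℝ) - 80) / BE (PD X D S ps) := by
  have hkap := kap_pos K
  filter_upwards [sift_ev K hK D hD, eighty K hK D hD] with X h1 h2
  intro ps S hS
  have h1 := h1 ps S hS
  have h2 := h2 ps S
  rw [hev.neg_one_pow, one_mul] at h1
  set L := Real.log X with hL
  set w := ⌊L ^ (al K)⌋₊ with hw
  obtain ⟨hun, hdis, hBE⟩ := split_PD X D S ps w
  set A := (PD X D S ps).filter (fun p => w < p) with hA
  set B := (PD X D S ps).filter (fun p => ¬ w < p) with hB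
  have hPp : ∀ p ∈ PD X D S ps, p.Prime := fun p hp => PD_prime hp
  have hAp : ∀ p ∈ A, p.Prime := fun p hp => hPp p (Finset.mem_filter.1 hp).1
  have hBp : ∀ p ∈ B, p.Prime := fun p hp => hPp p (Finset.mem_filter.1 hp).1
  set Y := YK K L with hY
  obtain ⟨r, hr⟩ := choose_class A B hAp hBp hdis Y
  rw [hun] at hr
  have hWW : (∏ p ∈ PD X D S ps, p) = WD X D S ps := rfl
  rw [hWW] at hr
  refine ⟨r, ?_⟩
  have hA0 : 0 < BE A := BE_pos hAp
  have hB0 : 0 < BE B := BE_pos hBp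
  have hBE0 : 0 < BE (PD X D S ps) := BE_pos hPp
  have hNA : (((Icc 1 Y).filter (fun h => ∀ p ∈ A, ¬ p ∣ h)).card : ℝ) = NA A Y := rfl
  rw [hNA] at hr
  have h3 : (1 + 3 / 4 * kap K) * Y * BE A ≤ NA A Y := by linarith
  have h4 : (1 + 3 / 4 * kap K) * Y ≤ (VV (WD X D S ps) r Y : ℝ) / BE (PD X D S ps) := by
    rw [le_div_iff₀ hBE0, hBE]
    calc (1 + 3 / 4 * kap K) * Y * (BE A * BE B) = BE B * ((1 + 3 / 4 * kap K) * Y * BE A) := by ring
      _ ≤ BE B * NA A Y := by gcongr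
      _ ≤ _ := hr
  rw [sub_div]
  have hY0 : (0 : ℝ) ≤ Y := Nat.cast_nonneg _
  nlinarith

theorem side_poor (K : ℕ) (hK : 1 ≤ K) (hod : Odd K) (D : ℝ) (hD : 1000 ≤ D) : ∀ᶠ X : ℝ in atTop,
    ∀ (ps : ℕ) (S : Finset ℕ), GoodS X S → ∃ r : ℕ,
        ((VV (WD X D S ps) r (YK K (Real.log X)) : ℝ) + 80) / BE (PD X D S ps) ≤
      (1 - kap K / 2) * (YK K (Real.log X) : ℝ) := by
  have hkap := kap_pos K
  filter_upwards [sift_ev K hK D hD, eighty K hK D hD] with X h1 h2
  intro ps S hS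
  have h1 := h1 ps S hS
  have h2 := h2 ps S
  rw [hod.neg_one_pow] at h1
  set L := Real.log X with hL
  set w := ⌊L ^ (al K)⌋₊ with hw
  obtain ⟨hun, hdis, hBE⟩ := split_PD X D S ps w
  set A := (PD X D S ps).filter (fun p => w < p) with hA
  set B := (PD X D S ps).filter (fun p => ¬ w < p) with hB
  have hPp : ∀ p ∈ PD X D S ps, p.Prime := fun p hp => PD_prime hp
  have hAp : ∀ p ∈ A, p.Prime := fun p hp => hPp p (Finset.mem_filter.1 hp).1
  have hBp : ∀ p ∈ B, p.Prime := fun p hp => hPp p (Finset.mem_filter.1 hp).1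
  set Y := YK K L with hY
  obtain ⟨r, hr⟩ := choose_class_le A B hAp hBp hdis Y
  rw [hun] at hr
  have hWW : (∏ p ∈ PD X D S ps, p) = WD X D S ps := rfl
  rw [hWW] at hr
  refine ⟨r, ?_⟩
  have hA0 : 0 < BE A := BE_pos hAp
  have hB0 : 0 < BE B := BE_pos hBp
  have hBE0 : 0 < BE (PD X D S ps) := BE_pos hPp
  have hNA : (((Icc 1 Y).filter (fun h => ∀ p ∈ A, ¬ p ∣ h)).card : ℝ) = NA A Y := rfl
  rw [hNA] at hr
  have h3 : (NA A Y : ℝ) ≤ (1 - 3 / 4 * kap K) * Y * BE A := by linarith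
  have h4 : (VV (WD X D S ps) r Y : ℝ) / BE (PD X D S ps) ≤ (1 - 3 / 4 * kap K) * Y := by
    rw [div_le_iff₀ hBE0, hBE]
    calc (VV (WD X D S ps) r Y : ℝ) ≤ BE B * NA A Y := hr
      _ ≤ BE B * ((1 - 3 / 4 * kap K) * Y * BE A) := by gcongr
      _ = _ := by ring
  rw [add_div]
  have hY0 : (0 : ℝ) ≤ Y := Nat.cast_nonneg _
  nlinarith

set_option maxHeartbeats 4000000 in
/-- **many rich windows** -/
theorem rows_rich (K : ℕ) (hK : 2 ≤ K) (hev : Even K) (D : ℝ) (hD : 1000 ≤ D) : ∀ᶠ X : ℝ in atTop,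
    kap K / 20000 * (X / (Real.exp (3 / 2 * (Real.log X / D)) * (Real.log X) ^ (K + 1))) ≤
      (((Icc 1 ⌊3 * X⌋₊).filter (fun n : ℕ => X < n ∧ (n : ℝ) < 3 * X ∧
        (1 + kap K / 4) * (YK K (Real.log X) / Real.log X) ≤
          (cnt n (YK K (Real.log X)) : ℝ))).card : ℝ) := by
  classical
  have hK1 : 1 ≤ K := by omega
  have hkap := kap_pos K
  have hkap1 := kap_le_one K
  have hD0 : 0 < D := by linarith
  set ε : ℝ := kap K / 16 with hε
  have hε0 : 0 < ε := by positivity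
  have hε1 : ε ≤ 1 / 16 := by rw [hε]; linarith
  obtain ⟨X0, hX0⟩ := rows_sumsK K (ε / 2) (by positivity) (by linarith) 1 D hD
  have e6 : ∀ᶠ X : ℝ in atTop, (Real.log X) ^ K ≤ X := by
    have h1 := (Real.isLittleO_pow_log_id_atTop (n := K)).bound (show (0 : ℝ) < 1 by norm_num)
    filter_upwards [h1, eventually_ge_atTop (1 : ℝ)] with X h2 h3
    rw [Real.norm_of_nonneg (pow_nonneg (Real.log_nonneg h3) K), id, Real.norm_of_nonneg (by linarith)] at h2
    linarith
  have e7 : ∀ᶠ X : ℝ in atTop, 64 / kap K ≤ Real.log X :=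
    Real.tendsto_log_atTop.eventually_ge_atTop _
  filter_upwards [side_rich K hK1 hev D hD, eventually_ge_atTop X0, eventually_ge_atTop (40 : ℝ),
      Real.tendsto_log_atTop.eventually_ge_atTop (2 : ℝ), e6, e7] with X g1 g2 g4 g7 g10 g11
  obtain ⟨ps, S, hps, hS, hr⟩ := hX0 X g2
  obtain ⟨r, g8⟩ := g1 ps S hS
  have hXpos : 0 < X := by linarith
  set L := Real.log X with hL
  have hL0 : 0 < L := by linarith
  set Y := YK K L with hY
  have g3 : (Y : ℝ) ≤ L ^ K := YK_le K (by linarith)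
  obtain ⟨r2, -, r3, r4⟩ := hr r Y g3
  set W := WD X D S ps with hW
  set B := BE (PD X D S ps) with hB
  have hPp : ∀ p ∈ PD X D S ps, p.Prime := fun p hp => PD_prime hp
  have hB0 : 0 < B := BE_pos hPp
  have hW0 : (0 : ℝ) < W := by exact_mod_cast WD_pos X D S ps
  have hφ : (W.totient : ℝ) = W * B := totient_prod _ hPp
  have hM1 := MPhi_ge X g4
  set M := MPhi X with hM
  have hM0 : 0 < M := by linarith
  set V : ℝ := (VV W r Y : ℝ) with hV
  set N1 := ∑ n ∈ Icc 1 ⌊3 * X⌋₊, nu X W r n with hN1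
  set A := (V - 80) / B with hA
  have hYge : L ^ K / 2 ≤ Y := YK_ge K (by linarith)
  have hY1 : (1 : ℝ) ≤ Y := by
    have h1 : 2 ≤ L ^ K := by
      calc (2 : ℝ) ≤ L := g7
        _ = L ^ 1 := (pow_one L).symm
        _ ≤ L ^ K := pow_le_pow_right₀ (by linarith) hK1
    linarith
  have hA1 : 1 ≤ A := by
    refine le_trans ?_ g8
    nlinarith
  have hMW : 0 < M / W := by positivity
  have hMφ : 0 < M / W.totient := by rw [hφ]; positivity
  have hT : (1 - ε / 2) * A * N1 ≤ ∑ n ∈ Icc 1 ⌊3 * X⌋₊, nu X W r n * thw n Y := by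
    refine le_trans ?_ r2
    calc (1 - ε / 2) * A * N1 ≤ (1 - ε / 2) * A * ((1 + ε / 2 / 4) * (M / W)) := by
          apply mul_le_mul_of_nonneg_left r4
          apply mul_nonneg <;> linarith
      _ = ((1 - ε / 2) * (1 + ε / 2 / 4)) * (A * (M / W)) := by ring
      _ ≤ (1 - ε / 2 / 4) * (A * (M / W)) := by
          apply mul_le_mul_of_nonneg_right _ (by positivity)
          nlinarith
      _ = (1 - ε / 2 / 4) * ((V - 80) * (M / W.totient)) := by
          rw [hA, hφ]; field_simp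
      _ ≤ _ := by nlinarith
  have hYX : (Y : ℝ) ≤ X := g3.trans g10
  have hgK : ∀ n : ℕ, X < n → (n : ℝ) < 3 * X → thw n Y ≤ (L + 2) * cnt n Y := by
    intro n hn1 hn2
    have hn0 : 0 < n := by
      have : (0 : ℝ) < n := by linarith
      exact_mod_cast this
    have h7 := thw_le n Y (4 * X) (by linarith) hn0
    refine h7.trans ?_
    have h8 : Real.log (4 * X) ≤ L + 2 := by
      rw [Real.log_mul (by norm_num) hXpos.ne']
      have a2 : Real.log 4 ≤ 2 := by
        rw [show (4 : ℝ) = 2 ^ 2 by norm_num, Real.log_pow]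
        have := Real.log_two_lt_d9
        push_cast; linarith
      linarith
    gcongr
  have hgK2 : ∀ n : ℕ, X < n → (n : ℝ) < 3 * X → thw n Y ≤ 2 * L ^ (K + 1) := by
    intro n hn1 hn2
    refine (hgK n hn1 hn2).trans ?_
    have h7 : (cnt n Y : ℝ) ≤ L ^ K := by
      have : (cnt n Y : ℝ) ≤ Y := by exact_mod_cast Pool.Agent.H510R2.Maier.G.cnt_le n Y
      exact this.trans g3
    calc (L + 2) * (cnt n Y : ℝ) ≤ (2 * L) * L ^ K := by
          apply mul_le_mul (by linarith) h7 (Nat.cast_nonneg _) (by linarith)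
      _ = 2 * L ^ (K + 1) := by ring
  have hcnt := count_many X hXpos W r (fun n => thw n Y) A ε N1 (2 * L ^ (K + 1)) hA1 hε0 (by linarith)
    hgK2 rfl hT
  have hsub : rowset X (fun n => (1 - ε) * A ≤ thw n Y) ⊆
      (Icc 1 ⌊3 * X⌋₊).filter (fun n : ℕ => X < n ∧ (n : ℝ) < 3 * X ∧
        (1 + kap K / 4) * (Y / L) ≤ (cnt n Y : ℝ)) := by
    intro n hn
    obtain ⟨m1, m2, m3, m4⟩ := mem_rowset.1 hn
    refine Finset.mem_filter.2 ⟨Finset.mem_Icc.2 m1, m2, m3, ?_⟩
    have s2 := m4.trans (hgK n m2 m3)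
    have s3 : (1 - ε) * ((1 + kap K / 2) * Y) ≤ (L + 2) * cnt n Y := by
      refine le_trans ?_ s2
      apply mul_le_mul_of_nonneg_left g8
      linarith
    have s4 : (1 + 3 / 8 * kap K) * Y ≤ (1 - ε) * ((1 + kap K / 2) * Y) := by
      rw [← mul_assoc]
      apply mul_le_mul_of_nonneg_right _ (by linarith)
      rw [hε]
      nlinarith
    have s5 : (1 + kap K / 4) * (L + 2) ≤ (1 + 3 / 8 * kap K) * L := by
      rw [div_le_iff₀ hkap] at g11
      nlinarith
    have s6 : (1 + kap K / 4) * (Y / L) * (L + 2) ≤ (L + 2) * cnt n Y := by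
      calc (1 + kap K / 4) * (Y / L) * (L + 2) = ((1 + kap K / 4) * (L + 2)) * (Y / L) := by ring
        _ ≤ ((1 + 3 / 8 * kap K) * L) * (Y / L) := by gcongr
        _ = (1 + 3 / 8 * kap K) * Y := by field_simp
        _ ≤ _ := s4.trans s3
    have s7 : (L + 2) * ((1 + kap K / 4) * (Y / L)) ≤ (L + 2) * cnt n Y := by linarith
    exact le_of_mul_le_mul_left s7 (by linarith)
  have hcard : ((rowset X (fun n => (1 - ε) * A ≤ thw n Y)).card : ℝ) ≤
      (((Icc 1 ⌊3 * X⌋₊).filter (fun n : ℕ => X < n ∧ (n : ℝ) < 3 * X ∧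
        (1 + kap K / 4) * (Y / L) ≤ (cnt n Y : ℝ))).card : ℝ) := by
    exact_mod_cast Finset.card_le_card hsub
  refine le_trans ?_ hcard
  have hWle := WD_le X D hD0 (by linarith) S ps
  rw [← hW, ← hL] at hWle
  have q1 : X / 40 / W ≤ N1 := by
    refine le_trans ?_ r3
    calc X / 40 / W = 1 / 2 * (X / 20 / W) := by ring
      _ ≤ (1 - ε / 2 / 4) * (M / W) := by
          have : (1 : ℝ) / 2 ≤ 1 - ε / 2 / 4 := by linarith
          gcongr
  have hL4 : 0 < L ^ (K + 1) := by positivity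
  have q2 : ε / 2 * (X / 40 / W) ≤ 2 * L ^ (K + 1) * ((rowset X (fun n => (1 - ε) * A ≤ thw n Y)).card : ℝ) := by
    refine le_trans ?_ hcnt
    gcongr
  have q3 : ε / 160 * (X / (W * L ^ (K + 1))) ≤ ((rowset X (fun n => (1 - ε) * A ≤ thw n Y)).card : ℝ) := by
    have q4 : ε / 160 * (X / (W * L ^ (K + 1))) * (2 * L ^ (K + 1)) = ε / 2 * (X / 40 / W) := by
      field_simp
      norm_num
    have q5 : 0 < 2 * L ^ (K + 1) := by positivity
    have q6 : ε / 160 * (X / (W * L ^ (K + 1))) * (2 * L ^ (K + 1)) ≤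
        ((rowset X (fun n => (1 - ε) * A ≤ thw n Y)).card : ℝ) * (2 * L ^ (K + 1)) := by
      rw [q4]
      linarith
    exact le_of_mul_le_mul_right q6 q5
  refine le_trans ?_ q3
  have q7 : X / (Real.exp (3 / 2 * (L / D)) * L ^ (K + 1)) ≤ X / (W * L ^ (K + 1)) := by gcongr
  have q8 : 0 ≤ X / (W * L ^ (K + 1)) := by positivity
  calc kap K / 20000 * (X / (Real.exp (3 / 2 * (L / D)) * L ^ (K + 1)))
      ≤ kap K / 20000 * (X / (W * L ^ (K + 1))) := by gcongr
    _ ≤ _ := by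
        apply mul_le_mul_of_nonneg_right _ q8
        rw [hε]
        linarith

set_option maxHeartbeats 4000000 in
/-- **many poor windows** -/
theorem rows_poor (K : ℕ) (hK : 1 ≤ K) (hod : Odd K) (D : ℝ) (hD : 1000 ≤ D) : ∀ᶠ X : ℝ in atTop,
    kap K / 20000 * (X / (Real.exp (3 / 2 * (Real.log X / D)) * (Real.log X) ^ (K + 1))) ≤
      (((Icc 1 ⌊3 * X⌋₊).filter (fun n : ℕ => X < n ∧ (n : ℝ) < 3 * X ∧
        (cnt n (YK K (Real.log X)) : ℝ) ≤
          (1 - kap K / 4) * (YK K (Real.log X) / Real.log X))).card : ℝ) := by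
  classical
  have hkap := kap_pos K
  have hkap1 := kap_le_one K
  have hD0 : 0 < D := by linarith
  set ε : ℝ := kap K / 16 with hε
  have hε0 : 0 < ε := by positivity
  have hε1 : ε ≤ 1 / 16 := by rw [hε]; linarith
  obtain ⟨X0, hX0⟩ := rows_sumsK K (ε / 2) (by positivity) (by linarith) 1 D hD
  filter_upwards [side_poor K hK hod D hD, eventually_ge_atTop X0, eventually_ge_atTop (40 : ℝ),
      Real.tendsto_log_atTop.eventually_ge_atTop (2 : ℝ)] with X g1 g2 g4 g7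
  obtain ⟨ps, S, hps, hS, hr⟩ := hX0 X g2
  obtain ⟨r, g8⟩ := g1 ps S hS
  have hXpos : 0 < X := by linarith
  set L := Real.log X with hL
  have hL0 : 0 < L := by linarith
  set Y := YK K L with hY
  have g3 : (Y : ℝ) ≤ L ^ K := YK_le K (by linarith)
  obtain ⟨-, r2, r3, r4⟩ := hr r Y g3
  set W := WD X D S ps with hW
  set B := BE (PD X D S ps) with hB
  have hPp : ∀ p ∈ PD X D S ps, p.Prime := fun p hp => PD_prime hp
  have hB0 : 0 < B := BE_pos hPp
  have hW0 : (0 : ℝ) < W := by exact_mod_cast WD_pos X D S ps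
  have hφ : (W.totient : ℝ) = W * B := totient_prod _ hPp
  have hM1 := MPhi_ge X g4
  set M := MPhi X with hM
  have hM0 : 0 < M := by linarith
  set V : ℝ := (VV W r Y : ℝ) with hV
  have hV0 : 0 ≤ V := Nat.cast_nonneg _
  set N1 := ∑ n ∈ Icc 1 ⌊3 * X⌋₊, nu X W r n with hN1
  set A := (V + 80) / B with hA
  have hA0 : 0 < A := by positivity
  have hMW : 0 < M / W := by positivity
  have hMφ : 0 < M / W.totient := by rw [hφ]; positivity
  have hT : ∑ n ∈ Icc 1 ⌊3 * X⌋₊, nu X W r n * thw n Y ≤ (1 + ε / 2) * A * N1 := by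
    refine r2.trans ?_
    calc (1 + ε / 2 / 4) * (V * (M / W.totient)) + 40 * (M / W.totient)
        ≤ (1 + ε / 2 / 4) * ((V + 80) * (M / W.totient)) := by nlinarith
      _ = (1 + ε / 2 / 4) * A * (M / W) := by
          rw [hA, hφ]; field_simp
      _ ≤ ((1 + ε / 2) * (1 - ε / 2 / 4)) * A * (M / W) := by
          have q1 : 1 + ε / 2 / 4 ≤ (1 + ε / 2) * (1 - ε / 2 / 4) := by nlinarith
          exact mul_le_mul_of_nonneg_right (mul_le_mul_of_nonneg_right q1 hA0.le) hMW.le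
      _ = (1 + ε / 2) * A * ((1 - ε / 2 / 4) * (M / W)) := by ring
      _ ≤ (1 + ε / 2) * A * N1 := by
          apply mul_le_mul_of_nonneg_left r3
          positivity
  have hcnt := count_few X hXpos W r (fun n => thw n Y) (fun n => thw_nonneg n Y) A ε N1 hA0 hε0
    (by linarith) rfl hT
  have hsub : rowset X (fun n => thw n Y ≤ (1 + ε) * A) ⊆
      (Icc 1 ⌊3 * X⌋₊).filter (fun n : ℕ => X < n ∧ (n : ℝ) < 3 * X ∧
        (cnt n Y : ℝ) ≤ (1 - kap K / 4) * (Y / L)) := by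
    intro n hn
    obtain ⟨m1, m2, m3, m4⟩ := mem_rowset.1 hn
    refine Finset.mem_filter.2 ⟨Finset.mem_Icc.2 m1, m2, m3, ?_⟩
    have s1 : L * cnt n Y ≤ (1 + ε) * A := (thw_ge n Y X hXpos m2).trans m4
    have s2 : (1 + ε) * A ≤ (1 + ε) * ((1 - kap K / 2) * Y) := by
      apply mul_le_mul_of_nonneg_left g8
      linarith
    have hY0 : (0 : ℝ) ≤ Y := Nat.cast_nonneg _
    have s3 : (1 + ε) * ((1 - kap K / 2) * Y) ≤ (1 - kap K / 4) * Y := by
      rw [← mul_assoc]
      apply mul_le_mul_of_nonneg_right _ hY0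
      rw [hε]
      nlinarith
    have s4 : L * cnt n Y ≤ L * ((1 - kap K / 4) * (Y / L)) := by
      calc L * cnt n Y ≤ (1 - kap K / 4) * Y := s1.trans (s2.trans s3)
        _ = L * ((1 - kap K / 4) * (Y / L)) := by field_simp
    exact le_of_mul_le_mul_left s4 hL0
  have hcard : ((rowset X (fun n => thw n Y ≤ (1 + ε) * A)).card : ℝ) ≤
      (((Icc 1 ⌊3 * X⌋₊).filter (fun n : ℕ => X < n ∧ (n : ℝ) < 3 * X ∧
        (cnt n Y : ℝ) ≤ (1 - kap K / 4) * (Y / L))).card : ℝ) := by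
    exact_mod_cast Finset.card_le_card hsub
  refine le_trans ?_ (hcnt.trans hcard)
  have hWle := WD_le X D hD0 (by linarith) S ps
  rw [← hW, ← hL] at hWle
  have q1 : X / 40 / W ≤ N1 := by
    refine le_trans ?_ r3
    have : (1 : ℝ) / 2 ≤ 1 - ε / 2 / 4 := by linarith
    calc X / 40 / W = 1 / 2 * (X / 20 / W) := by ring
      _ ≤ (1 - ε / 2 / 4) * (M / W) := by gcongr
  have hL1 : 1 ≤ L ^ (K + 1) := one_le_pow₀ (by linarith)
  calc kap K / 20000 * (X / (Real.exp (3 / 2 * (L / D)) * L ^ (K + 1)))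
      ≤ kap K / 20000 * (X / (Real.exp (3 / 2 * (L / D)) * 1)) := by gcongr
    _ ≤ kap K / 20000 * (X / (W * 1)) := by gcongr
    _ = kap K / 500 * (X / 40 / W) := by rw [mul_one]; ring
    _ ≤ ε / 4 * (X / 40 / W) := by
        apply mul_le_mul_of_nonneg_right _ (by positivity)
        rw [hε]
        linarith
    _ ≤ ε / 4 * N1 := by gcongr

end Pool.Agent.N914.MR
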