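import Mathlib

/-! Covering arguments: windows that are rich (poor) at all scales. -/

set_option autoImplicit false

open Finset

namespace Pool.Agent.N914.MR

/-- number of elements of `P` in `(a, b]` -/
noncomputable def pc (P : ℕ → Prop) [DecidablePred P] (a b : ℕ) : ℕ := ((Ioc a b).filter P).card

theorem pc_split (P : ℕ → Prop) [DecidablePred P] {a b c : ℕ} (h1 : a ≤ b) (h2 : b ≤ c) :
    pc P a c = pc P a b + pc P b c := by
  unfold pc
  rw [← Finset.Ioc_union_Ioc_eq_Ioc h1 h2, Finset.filter_union, Finset.card_union_of_disjoint]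
  apply Finset.disjoint_filter_filter
  rw [Finset.disjoint_left]
  intro x h3 h4
  rw [Finset.mem_Ioc] at h3 h4
  omega

theorem pc_mono (P : ℕ → Prop) [DecidablePred P] {a b c : ℕ} (h : b ≤ c) : pc P a b ≤ pc P a c := by
  unfold pc
  exact Finset.card_le_card (Finset.filter_subset_filter _ (Finset.Ioc_subset_Ioc_right h))

theorem pc_zero (P : ℕ → Prop) [DecidablePred P] {a b : ℕ} (h : ∀ t, a < t → t ≤ b → ¬ P t) :
    pc P a b = 0 := by
  unfold pc
  rw [Finset.card_eq_zero, Finset.filter_eq_empty_iff]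
  intro t ht
  rw [Finset.mem_Ioc] at ht
  exact h t ht.1 ht.2

/-- **Rich at all scales.** -/
theorem greedy_rich (P : ℕ → Prop) [DecidablePred P] (κ Y' : ℝ) (hκ : 0 ≤ κ) (hY' : 0 ≤ Y')
    (n Y : ℕ) (h : κ * (Y + Y') < pc P n (n + Y)) :
    ∃ t : ℕ, P t ∧ n < t ∧ t ≤ n + Y ∧
      ∀ y : ℝ, 0 < y → y ≤ Y' → κ * y ≤ pc P (t - 1) (t + ⌊y⌋₊) := by
  classical
  by_contra hcon
  push Not at hcon
  have key : ∀ m : ℕ, m ≤ Y → (pc P (n + Y - m) (n + Y) : ℝ) ≤ κ * (m + Y') := by
    intro m
    induction m using Nat.strong_induction_on with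
    | _ m ih =>
      intro hm
      by_cases hex : ∃ t, n + Y - m < t ∧ t ≤ n + Y ∧ P t
      · set t := Nat.find hex with ht
        obtain ⟨t1, t2, t3⟩ := Nat.find_spec hex
        rw [← ht] at t1 t2 t3
        obtain ⟨y, hy0, hyY, hy⟩ := hcon t t3 (by omega) t2
        have hmin : ∀ s, n + Y - m < s → s ≤ t - 1 → ¬ P s := by
          intro s hs1 hs2 hs3
          have : t ≤ s := Nat.find_min' hex ⟨hs1, by omega, hs3⟩
          omega
        have hz : pc P (n + Y - m) (t - 1) = 0 := pc_zero P hmin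
        rcases le_or_gt (n + Y) (t + ⌊y⌋₊) with hc | hc
        · have h1 : pc P (n + Y - m) (n + Y) ≤ pc P (t - 1) (t + ⌊y⌋₊) := by
            rw [pc_split P (show n + Y - m ≤ t - 1 by omega) (show t - 1 ≤ n + Y by omega), hz,
              zero_add]
            exact pc_mono P hc
          have h2 : (pc P (n + Y - m) (n + Y) : ℝ) ≤ pc P (t - 1) (t + ⌊y⌋₊) := by exact_mod_cast h1
          calc (pc P (n + Y - m) (n + Y) : ℝ) ≤ κ * y := by linarith
            _ ≤ κ * (m + Y') := by
                apply mul_le_mul_of_nonneg_left _ hκ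
                have : (0 : ℝ) ≤ m := Nat.cast_nonneg _
                linarith
        · set m' := n + Y - (t + ⌊y⌋₊) with hm'
          have h3 : n + Y - m' = t + ⌊y⌋₊ := by omega
          have h4 : m' < m := by omega
          have h5 := ih m' h4 (by omega)
          rw [h3] at h5
          have h6 : pc P (n + Y - m) (n + Y) =
              pc P (t - 1) (t + ⌊y⌋₊) + pc P (t + ⌊y⌋₊) (n + Y) := by
            rw [pc_split P (show n + Y - m ≤ t - 1 by omega) (show t - 1 ≤ n + Y by omega), hz,
              zero_add, pc_split P (show t - 1 ≤ t + ⌊y⌋₊ by omega) hc.le]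
          have h7 : m' + (⌊y⌋₊ + 1) ≤ m := by omega
          have h8 : (m' : ℝ) + (⌊y⌋₊ + 1) ≤ m := by exact_mod_cast h7
          have h9 := Nat.lt_floor_add_one y
          rw [h6]
          push_cast
          have h10 : κ * (y + (m' + Y')) ≤ κ * (m + Y') := by
            apply mul_le_mul_of_nonneg_left _ hκ
            linarith
          linarith
      · push Not at hex
        rw [pc_zero P hex]
        have : (0 : ℝ) ≤ m := Nat.cast_nonneg _
        push_cast
        positivity
  have := key Y le_rfl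
  rw [Nat.add_sub_cancel] at this
  linarith

/-- **Poor at all scales.** -/
theorem greedy_poor (P : ℕ → Prop) [DecidablePred P] (κ Y' : ℝ) (hκ : 0 ≤ κ)
    (n Y : ℕ) (h : (pc P n (n + Y + ⌊Y'⌋₊) : ℝ) < κ * Y) :
    ∃ t : ℕ, n ≤ t ∧ t < n + Y ∧
      ∀ y : ℝ, 0 < y → y ≤ Y' → (pc P t (t + ⌊y⌋₊) : ℝ) ≤ κ * y := by
  classical
  by_contra hcon
  push Not at hcon
  have key : ∀ m : ℕ, m ≤ Y → κ * m ≤ (pc P (n + Y - m) (n + Y + ⌊Y'⌋₊) : ℝ) := by
    intro m
    induction m using Nat.strong_induction_on with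
    | _ m ih =>
      intro hm
      rcases Nat.eq_zero_or_pos m with hm0 | hm0
      · subst hm0
        simp
      · set t := n + Y - m with ht
        obtain ⟨y, hy0, hyY, hy⟩ := hcon t (by omega) (by omega)
        have hfl : ⌊y⌋₊ ≤ ⌊Y'⌋₊ := Nat.floor_le_floor hyY
        have hfy : (⌊y⌋₊ : ℝ) ≤ y := Nat.floor_le hy0.le
        have hf1 : 1 ≤ ⌊y⌋₊ := by
          by_contra hlt
          have h0 : ⌊y⌋₊ = 0 := by omega
          rw [h0] at hy
          have h1 : pc P t (t + 0) = 0 := by
            apply pc_zero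
            intro s h1 h2
            omega
          rw [h1] at hy
          have : 0 ≤ κ * y := by positivity
          simp only [Nat.cast_zero] at hy
          linarith
        rcases le_or_gt m ⌊y⌋₊ with hc | hc
        · have h1 : pc P t (t + ⌊y⌋₊) ≤ pc P t (n + Y + ⌊Y'⌋₊) := pc_mono P (by omega)
          have h2 : (pc P t (t + ⌊y⌋₊) : ℝ) ≤ pc P t (n + Y + ⌊Y'⌋₊) := by exact_mod_cast h1
          have h3 : (m : ℝ) ≤ ⌊y⌋₊ := by exact_mod_cast hc
          have h4 : κ * m ≤ κ * y := by
            apply mul_le_mul_of_nonneg_left _ hκ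
            linarith
          linarith
        · set m' := m - ⌊y⌋₊ with hm'
          have h3 : n + Y - m' = t + ⌊y⌋₊ := by omega
          have h5 := ih m' (by omega) (by omega)
          rw [h3] at h5
          have h6 : pc P t (n + Y + ⌊Y'⌋₊) =
              pc P t (t + ⌊y⌋₊) + pc P (t + ⌊y⌋₊) (n + Y + ⌊Y'⌋₊) :=
            pc_split P (by omega) (by omega)
          have h7 : (m : ℝ) = m' + ⌊y⌋₊ := by
            have : m = m' + ⌊y⌋₊ := by omega
            exact_mod_cast this
          rw [h6]
          push_cast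
          have h8 : κ * m ≤ κ * (m' + y) := by
            apply mul_le_mul_of_nonneg_left _ hκ
            linarith
          linarith
  have := key Y le_rfl
  rw [Nat.add_sub_cancel] at this
  linarith

end Pool.Agent.N914.MR
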