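import Mathlib
import Pool.Agent.N914.MR.Freq
import Pool.Agent.N914.MR.Greedy

/-! Integers which are the start of rich (poor) intervals at all scales up to a power of the
logarithm. -/

set_option autoImplicit false

open Finset Filter Topology
open Pool.Agent.H510R2.Maier

namespace Pool.Agent.N914.MR

theorem cnt_eq_pc (n Y : ℕ) : cnt n Y = pc Nat.Prime n (n + Y) := by
  unfold cnt pc
  apply Finset.card_bij (fun h _ => n + h)
  · intro h hh
    rw [Finset.mem_filter, Finset.mem_Icc] at hh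
    rw [Finset.mem_filter, Finset.mem_Ioc]
    exact ⟨⟨by omega, by omega⟩, hh.2⟩
  · intro a _ b _ hab
    omega
  · intro b hb
    rw [Finset.mem_filter, Finset.mem_Ioc] at hb
    refine ⟨b - n, ?_, by omega⟩
    rw [Finset.mem_filter, Finset.mem_Icc]
    refine ⟨⟨by omega, by omega⟩, ?_⟩
    rw [show n + (b - n) = b by omega]
    exact hb.2

theorem pc_pi {a b : ℕ} (h : a ≤ b) :
    (pc Nat.Prime a b : ℝ) = (Nat.primeCounting b : ℝ) - Nat.primeCounting a := by
  have h1 := cnt_pi a (b - a)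
  rw [cnt_eq_pc, show a + (b - a) = b by omega] at h1
  exact h1

/-- rich at all scales up to `(log n) ^ A` -/
def Rich (δ : ℝ) (A n : ℕ) : Prop := ∀ y : ℝ, 0 < y → y ≤ (Real.log n) ^ A →
  (1 + δ) * (y / Real.log n) ≤
    (Nat.primeCounting ⌊(n : ℝ) + y⌋₊ : ℝ) - Nat.primeCounting (n - 1)

/-- poor at all scales up to `(log n) ^ A` -/
def Poor (δ : ℝ) (A n : ℕ) : Prop := ∀ y : ℝ, 0 < y → y ≤ (Real.log n) ^ A →
  (Nat.primeCounting ⌊(n : ℝ) + y⌋₊ : ℝ) - Nat.primeCounting n ≤ (1 - δ) * (y / Real.log n)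

theorem floor_add (n : ℕ) {y : ℝ} (hy : 0 ≤ y) : ⌊(n : ℝ) + y⌋₊ = n + ⌊y⌋₊ := by
  rw [add_comm, Nat.floor_add_natCast hy, add_comm]

theorem arithK (η : ℝ) (hη : 0 < η) (c0 : ℝ) (hc0 : 0 < c0) (D : ℝ) (hD : 3 / η ≤ D) (M : ℕ) :
    ∀ᶠ X : ℝ in atTop, (4 * X) ^ (1 - η) ≤
      c0 * (X / (Real.exp (3 / 2 * (Real.log X / D)) * (Real.log X) ^ M)) := by
  have hD0 : 0 < D := lt_of_lt_of_le (by positivity) hD
  have e1 := Real.isLittleO_log_id_atTop.bound (show (0 : ℝ) < η / (4 * (M + 1)) by positivity)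
  have e1' := Real.tendsto_log_atTop.eventually e1
  have e2 := Real.tendsto_log_atTop.eventually_ge_atTop (4 / η * |(1 - η) * Real.log 4 - Real.log c0|)
  filter_upwards [e1', e2, Real.tendsto_log_atTop.eventually_gt_atTop (1 : ℝ), eventually_gt_atTop (1 : ℝ)] with X h1 h2 h3 h4
  have hX0 : 0 < X := by linarith
  set L := Real.log X with hL
  have hlogL : 0 < Real.log L := Real.log_pos h3
  rw [Real.norm_of_nonneg hlogL.le, id, Real.norm_of_nonneg (by linarith)] at h1
  have h5 : c0 * (X / (Real.exp (3 / 2 * (L / D)) * L ^ M)) =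
      Real.exp (Real.log c0 + L - 3 / 2 * (L / D) - M * Real.log L) := by
    rw [Real.exp_sub, Real.exp_sub, Real.exp_add, Real.exp_log hc0, hL, Real.exp_log hX0, ← hL,
      Real.exp_nat_mul, Real.exp_log (by linarith)]
    field_simp
  rw [h5, Real.rpow_def_of_pos (by positivity), Real.log_mul (by norm_num) hX0.ne', ← hL]
  apply Real.exp_le_exp.2
  have h6 : 3 / 2 * (L / D) ≤ η / 2 * L := by
    have h7 : 3 ≤ D * η := by
      rw [div_le_iff₀ hη] at hD
      exact hD
    rw [mul_div_assoc', div_le_iff₀ hD0]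
    nlinarith
  have h7 : (1 - η) * Real.log 4 - Real.log c0 ≤ η / 4 * L := by
    refine (le_abs_self _).trans ?_
    have h8 : |(1 - η) * Real.log 4 - Real.log c0| = η / 4 * (4 / η * |(1 - η) * Real.log 4 - Real.log c0|) := by
      field_simp
    rw [h8]
    gcongr
  have h8 : M * Real.log L ≤ η / 4 * L := by
    have hM0 : (0 : ℝ) ≤ M := Nat.cast_nonneg _
    calc M * Real.log L ≤ (M + 1) * (η / (4 * (M + 1)) * L) := by
          apply mul_le_mul (by linarith) h1 hlogL.le (by linarith)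
      _ = η / 4 * L := by field_simp
  nlinarith

theorem log_le_of_lt4 {X : ℝ} (hX : 0 < X) {t : ℕ} (h1 : X < t) (h2 : (t : ℝ) ≤ 4 * X) :
    Real.log X ≤ Real.log t ∧ Real.log t ≤ Real.log X + 2 := by
  refine ⟨Real.log_le_log hX h1.le, ?_⟩
  have a1 : Real.log t ≤ Real.log (4 * X) := Real.log_le_log (by linarith) h2
  rw [Real.log_mul (by norm_num) hX.ne'] at a1
  have a2 : Real.log 4 ≤ 2 := by
    rw [show (4 : ℝ) = 2 ^ 2 by norm_num, Real.log_pow]
    have := Real.log_two_lt_d9
    push_cast; linarith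
  linarith

/-- the scales are short compared with the base window -/
theorem scale_small (A K : ℕ) (hAK : A + 1 ≤ K) (c : ℝ) (hc : 0 < c) : ∀ᶠ X : ℝ in atTop,
    (Real.log X + 2) ^ A ≤ c * YK K (Real.log X) := by
  filter_upwards [Real.tendsto_log_atTop.eventually_ge_atTop (2 : ℝ),
    Real.tendsto_log_atTop.eventually_ge_atTop (2 * 2 ^ A / c)] with X h1 h2
  set L := Real.log X with hL
  have h3 := YK_ge K (show 1 ≤ L by linarith)
  rw [div_le_iff₀ hc] at h2
  have hA0 : 0 ≤ L ^ A := by positivity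
  calc (L + 2) ^ A ≤ (2 * L) ^ A := pow_le_pow_left₀ (by linarith) (by linarith) _
    _ = 2 ^ A * L ^ A := mul_pow _ _ _
    _ ≤ (L * c / 2) * L ^ A := by
        apply mul_le_mul_of_nonneg_right _ hA0
        linarith
    _ = c * (L ^ (A + 1) / 2) := by ring
    _ ≤ c * (L ^ K / 2) := by
        have : L ^ (A + 1) ≤ L ^ K := pow_le_pow_right₀ (by linarith) hAK
        gcongr
    _ ≤ _ := by gcongr

theorem ev_logpow (K : ℕ) : ∀ᶠ X : ℝ in atTop, (Real.log X) ^ K ≤ X := by
  have h1 := (Real.isLittleO_pow_log_id_atTop (n := K)).bound (show (0 : ℝ) < 1 by norm_num)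
  filter_upwards [h1, eventually_ge_atTop (1 : ℝ)] with X h2 h3
  rw [Real.norm_of_nonneg (pow_nonneg (Real.log_nonneg h3) K), id, Real.norm_of_nonneg (by linarith)] at h2
  linarith

/-- transfer of the number of windows to the number of starting points -/
theorem transfer (K : ℕ) (c0 X Z : ℝ) (hX : 0 < X) (hL : 1 ≤ Real.log X)
    (s T : Finset ℕ) (f : ℕ → ℕ) (hf : ∀ n ∈ s, f n ∈ T)
    (hfn : ∀ n ∈ s, n ≤ f n ∧ f n ≤ n + YK K (Real.log X) ∧ f n ≠ n + YK K (Real.log X) ∨
      n < f n ∧ f n ≤ n + YK K (Real.log X))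
    (hs : c0 * (X / (Z * (Real.log X) ^ (K + 1))) ≤ (s.card : ℝ)) (hc0 : 0 ≤ c0) (hZ : 0 < Z) :
    c0 * (X / (Z * (Real.log X) ^ (2 * K + 1))) / 2 ≤ (T.card : ℝ) := by
  classical
  set L := Real.log X with hLd
  set Y := YK K L with hY
  have h1 : s.card ≤ (Y + 1) * T.card := by
    apply Finset.card_le_mul_card_image_of_maps_to hf
    intro b hb
    calc (s.filter (fun a => f a = b)).card ≤ (Finset.Icc (b - Y) b).card := by
          apply Finset.card_le_card
          intro n hn
          rw [Finset.mem_filter] at hn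
          rw [Finset.mem_Icc]
          rcases hfn n hn.1 with h | h <;> omega
      _ ≤ Y + 1 := by
          rw [Nat.card_Icc]; omega
  have h2 : (s.card : ℝ) ≤ (Y + 1) * T.card := by exact_mod_cast h1
  have h3 : (Y : ℝ) ≤ L ^ K := YK_le K (by linarith)
  have h4 : (1 : ℝ) ≤ L ^ K := one_le_pow₀ hL
  have hT0 : (0 : ℝ) ≤ T.card := Nat.cast_nonneg _
  have h5 : (s.card : ℝ) ≤ 2 * L ^ K * T.card := by
    refine h2.trans ?_
    apply mul_le_mul_of_nonneg_right _ hT0
    linarith
  have hLK : 0 < L ^ K := by linarith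
  have h6 : c0 * (X / (Z * L ^ (2 * K + 1))) / 2 * (2 * L ^ K) = c0 * (X / (Z * L ^ (K + 1))) := by
    have : L ^ (2 * K + 1) = L ^ (K + 1) * L ^ K := by
      rw [← pow_add]; congr 1; ring
    rw [this]
    have hL1 : 0 < L ^ (K + 1) := by positivity
    field_simp
  have h7 : c0 * (X / (Z * L ^ (2 * K + 1))) / 2 * (2 * L ^ K) ≤ T.card * (2 * L ^ K) := by
    rw [h6]; linarith
  exact le_of_mul_le_mul_right h7 (by linarith)

open Classical in
theorem rich_final (A : ℕ) (δ η : ℝ) (hδ : δ ≤ kap (2 * A + 2) / 8) (hη : 0 < η) :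
    ∀ᶠ x : ℕ in atTop, (x : ℝ) ^ (1 - η) ≤ (((Icc 1 x).filter (fun n => Rich δ A n)).card : ℝ) := by
  set K := 2 * A + 2 with hK
  have hkap := kap_pos K
  have hkap1 := kap_le_one K
  set D : ℝ := max 1000 (3 / η) with hDdef
  have hD : 1000 ≤ D := le_max_left _ _
  have hD2 : 3 / η ≤ D := le_max_right _ _
  have e1 := rows_rich K (by omega) ⟨A + 1, by omega⟩ D hD
  have e2 := arithK η hη (kap K / 40000) (by positivity) D hD2 (2 * K + 1)
  have e3 := scale_small A K (by omega) (kap K / 32) (by positivity)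
  have e4 := ev_logpow K
  have key : ∀ᶠ X : ℝ in atTop, (4 * X) ^ (1 - η) ≤
      (((Icc 1 ⌊4 * X⌋₊).filter (fun n => Rich δ A n)).card : ℝ) := by
    filter_upwards [e1, e2, e3, e4, eventually_ge_atTop (1 : ℝ),
      Real.tendsto_log_atTop.eventually_ge_atTop (2 : ℝ)] with X h1 h2 h3 h4 h5 h6
    set L := Real.log X with hL
    set Y := YK K L with hY
    have hL0 : 0 < L := by linarith
    have hX0 : 0 < X := by linarith
    have hYX : (Y : ℝ) ≤ X := (YK_le K hL0.le).trans h4
    have hY0 : (0 : ℝ) < Y := by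
      have := YK_ge K (show 1 ≤ L by linarith)
      have h7 : 0 < L ^ K := by positivity
      linarith
    set s := (Icc 1 ⌊3 * X⌋₊).filter (fun n : ℕ => X < n ∧ (n : ℝ) < 3 * X ∧
        (1 + kap K / 4) * (Y / L) ≤ (cnt n Y : ℝ)) with hs
    have hex : ∀ n ∈ s, ∃ t : ℕ, n < t ∧ t ≤ n + Y ∧ Rich δ A t := by
      intro n hn
      rw [hs, Finset.mem_filter] at hn
      obtain ⟨-, n1, n2, n3⟩ := hn
      rw [cnt_eq_pc] at n3
      have hρ : 0 ≤ (1 + kap K / 8) / L := by positivity
      have hY'0 : 0 ≤ (L + 2) ^ A := by positivity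
      have hlt : (1 + kap K / 8) / L * (Y + (L + 2) ^ A) < pc Nat.Prime n (n + Y) := by
        refine lt_of_lt_of_le ?_ n3
        rw [div_mul_eq_mul_div, ← mul_div_assoc]
        apply div_lt_div_of_pos_right _ hL0
        nlinarith
      obtain ⟨t, t1, t2, t3, t4⟩ := greedy_rich Nat.Prime _ _ hρ hY'0 n Y hlt
      refine ⟨t, t2, t3, ?_⟩
      have ht1 : X < t := by
        have : (n : ℝ) < t := by exact_mod_cast t2
        linarith
      have ht2 : (t : ℝ) ≤ 4 * X := by
        have : (t : ℝ) ≤ n + Y := by exact_mod_cast t3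
        linarith
      obtain ⟨l1, l2⟩ := log_le_of_lt4 hX0 ht1 ht2
      rw [← hL] at l1 l2
      intro y hy0 hy
      have hy' : y ≤ (L + 2) ^ A := hy.trans (pow_le_pow_left₀ (by linarith) l2 _)
      have h7 := t4 y hy0 hy'
      rw [floor_add t hy0.le, ← pc_pi (by omega)]
      refine le_trans ?_ h7
      have h8 : y / Real.log t ≤ y / L := by gcongr
      have h9 : 0 < y / Real.log t := by
        have : 0 < Real.log t := by linarith
        positivity
      calc (1 + δ) * (y / Real.log t) ≤ (1 + kap K / 8) * (y / Real.log t) := by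
            apply mul_le_mul_of_nonneg_right _ h9.le
            linarith
        _ ≤ (1 + kap K / 8) * (y / L) := by gcongr
        _ = _ := by ring
    choose! f hf using hex
    have hT : ∀ n ∈ s, f n ∈ (Icc 1 ⌊4 * X⌋₊).filter (fun n => Rich δ A n) := by
      intro n hn
      obtain ⟨f1, f2, f3⟩ := hf n hn
      rw [hs, Finset.mem_filter] at hn
      rw [Finset.mem_filter, Finset.mem_Icc]
      refine ⟨⟨by omega, ?_⟩, f3⟩
      apply Nat.le_floor
      have : (f n : ℝ) ≤ n + Y := by exact_mod_cast f2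
      linarith [hn.2.2.1]
    have hfin := transfer K (kap K / 20000) X (Real.exp (3 / 2 * (L / D))) hX0 (by linarith) s _ f hT
      (fun n hn => Or.inr ⟨(hf n hn).1, (hf n hn).2.1⟩) h1 (by positivity) (Real.exp_pos _)
    refine le_trans (h2.trans (le_of_eq ?_)) hfin
    ring
  have htend : Tendsto (fun x : ℕ => (x : ℝ) / 4) atTop atTop :=
    tendsto_natCast_atTop_atTop.atTop_div_const (by norm_num)
  filter_upwards [htend.eventually key] with x hx
  have h6 : 4 * ((x : ℝ) / 4) = x := by ring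
  rw [h6, Nat.floor_natCast] at hx
  exact hx

open Classical in
theorem poor_final (A : ℕ) (δ η : ℝ) (hδ : δ ≤ kap (2 * A + 3) / 16) (hη : 0 < η) :
    ∀ᶠ x : ℕ in atTop, (x : ℝ) ^ (1 - η) ≤ (((Icc 1 x).filter (fun n => Poor δ A n)).card : ℝ) := by
  set K := 2 * A + 3 with hK
  have hkap := kap_pos K
  have hkap1 := kap_le_one K
  set D : ℝ := max 1000 (3 / η) with hDdef
  have hD : 1000 ≤ D := le_max_left _ _
  have hD2 : 3 / η ≤ D := le_max_right _ _
  have e1 := rows_poor K (by omega) ⟨A + 1, by omega⟩ D hD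
  have e2 := arithK η hη (kap K / 40000) (by positivity) D hD2 (2 * K + 1)
  have e3 := scale_small A K (by omega) (kap K / 32) (by positivity)
  have e4 := ev_logpow K
  have key : ∀ᶠ X : ℝ in atTop, (4 * X) ^ (1 - η) ≤
      (((Icc 1 ⌊4 * X⌋₊).filter (fun n => Poor δ A n)).card : ℝ) := by
    filter_upwards [e1, e2, e3, e4, eventually_ge_atTop (1 : ℝ),
      Real.tendsto_log_atTop.eventually_ge_atTop (2 : ℝ),
      Real.tendsto_log_atTop.eventually_ge_atTop (32 / kap K)] with X h1 h2 h3 h4 h5 h6 h7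
    set L := Real.log X with hL
    set Y := YK K L with hY
    have hL0 : 0 < L := by linarith
    have hX0 : 0 < X := by linarith
    have hYX : (Y : ℝ) ≤ X := (YK_le K hL0.le).trans h4
    have hY0 : (0 : ℝ) < Y := by
      have := YK_ge K (show 1 ≤ L by linarith)
      have h7 : 0 < L ^ K := by positivity
      linarith
    set s := (Icc 1 ⌊3 * X⌋₊).filter (fun n : ℕ => X < n ∧ (n : ℝ) < 3 * X ∧
        (cnt n Y : ℝ) ≤ (1 - kap K / 4) * (Y / L)) with hs
    have hY'0 : 0 ≤ (L + 2) ^ A := by positivity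
    set Y2 := ⌊(L + 2) ^ A⌋₊ with hY2
    have hY2le : (Y2 : ℝ) ≤ (L + 2) ^ A := Nat.floor_le hY'0
    have hY2Y : Y2 ≤ Y := by
      have : (Y2 : ℝ) ≤ Y := by nlinarith
      exact_mod_cast this
    have hex : ∀ n ∈ s, ∃ t : ℕ, n ≤ t ∧ t < n + Y ∧ Poor δ A t := by
      intro n hn
      rw [hs, Finset.mem_filter] at hn
      obtain ⟨-, n1, n2, n3⟩ := hn
      rw [cnt_eq_pc] at n3
      have hρ : 0 ≤ (1 - kap K / 8) / L := by
        apply div_nonneg _ hL0.le
        linarith
      have hYs : ((Y - Y2 : ℕ) : ℝ) = Y - Y2 := by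
        push_cast [Nat.cast_sub hY2Y]; ring
      have hlt : (pc Nat.Prime n (n + (Y - Y2) + ⌊(L + 2) ^ A⌋₊) : ℝ) <
          (1 - kap K / 8) / L * ((Y - Y2 : ℕ) : ℝ) := by
        rw [← hY2, show n + (Y - Y2) + Y2 = n + Y by omega, hYs]
        refine lt_of_le_of_lt n3 ?_
        rw [div_mul_eq_mul_div, ← mul_div_assoc]
        apply div_lt_div_of_pos_right _ hL0
        nlinarith
      obtain ⟨t, t2, t3, t4⟩ := greedy_poor Nat.Prime _ _ hρ n (Y - Y2) hlt
      refine ⟨t, t2, by omega, ?_⟩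
      have ht1 : X < t := by
        have : (n : ℝ) ≤ t := by exact_mod_cast t2
        linarith
      have ht2 : (t : ℝ) ≤ 4 * X := by
        have h8 : t ≤ n + Y := by omega
        have : (t : ℝ) ≤ n + Y := by exact_mod_cast h8
        linarith
      obtain ⟨l1, l2⟩ := log_le_of_lt4 hX0 ht1 ht2
      rw [← hL] at l1 l2
      intro y hy0 hy
      have hy' : y ≤ (L + 2) ^ A := hy.trans (pow_le_pow_left₀ (by linarith) l2 _)
      have h8 := t4 y hy0 hy'
      rw [floor_add t hy0.le, ← pc_pi (by omega)]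
      refine h8.trans ?_
      have hlt0 : 0 < Real.log t := by linarith
      have h9 : (1 - kap K / 8) / L ≤ (1 - kap K / 16) / Real.log t := by
        rw [div_le_div_iff₀ hL0 hlt0]
        have h10 : (1 - kap K / 8) * Real.log t ≤ (1 - kap K / 8) * (L + 2) := by
          apply mul_le_mul_of_nonneg_left l2
          linarith
        refine h10.trans ?_
        rw [div_le_iff₀ hkap] at h7
        nlinarith
      calc (1 - kap K / 8) / L * y ≤ (1 - kap K / 16) / Real.log t * y := by gcongr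
        _ = (1 - kap K / 16) * (y / Real.log t) := by ring
        _ ≤ (1 - δ) * (y / Real.log t) := by
            apply mul_le_mul_of_nonneg_right _ (by positivity)
            linarith
    choose! f hf using hex
    have hT : ∀ n ∈ s, f n ∈ (Icc 1 ⌊4 * X⌋₊).filter (fun n => Poor δ A n) := by
      intro n hn
      obtain ⟨f1, f2, f3⟩ := hf n hn
      rw [hs, Finset.mem_filter, Finset.mem_Icc] at hn
      rw [Finset.mem_filter, Finset.mem_Icc]
      refine ⟨⟨by omega, ?_⟩, f3⟩
      apply Nat.le_floor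
      have : (f n : ℝ) ≤ n + Y := by exact_mod_cast f2.le
      linarith [hn.2.2.1]
    have hfin := transfer K (kap K / 20000) X (Real.exp (3 / 2 * (L / D))) hX0 (by linarith) s _ f hT
      (fun n hn => Or.inl ⟨(hf n hn).1, (hf n hn).2.1.le, (hf n hn).2.1.ne⟩) h1 (by positivity)
      (Real.exp_pos _)
    refine le_trans (h2.trans (le_of_eq ?_)) hfin
    ring
  have htend : Tendsto (fun x : ℕ => (x : ℝ) / 4) atTop atTop :=
    tendsto_natCast_atTop_atTop.atTop_div_const (by norm_num)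
  filter_upwards [htend.eventually key] with x hx
  have h6 : 4 * ((x : ℝ) / 4) = x := by ring
  rw [h6, Nat.floor_natCast] at hx
  exact hx

end Pool.Agent.N914.MR
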