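import Mathlib
import Pool.Agent.N914.MR.Final

/-! The three statements. -/

set_option autoImplicit false

open Finset Filter Topology

namespace Pool.Agent.N914.MR

/-- the uniform deviation -/
noncomputable def dlt (A : ℕ) : ℝ :=
  1 / (32 * (8 * (A : ℝ) + 16) ^ (2 * A + 4) * (2 * A + 4).factorial)

theorem dlt_eq (A : ℕ) : dlt A = kap (2 * A + 3) / 32 := by
  unfold dlt kap
  have h1 : 4 * (((2 * A + 3 : ℕ) : ℝ) + 1) = 8 * (A : ℝ) + 16 := by push_cast; ring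
  rw [h1, show 2 * A + 3 + 1 = 2 * A + 4 by ring]
  have h2 : (0 : ℝ) < 8 * (A : ℝ) + 16 := by positivity
  have h3 : (0 : ℝ) < (2 * A + 4).factorial := by exact_mod_cast Nat.factorial_pos _
  rw [one_div_pow]
  field_simp

theorem kap_anti (K : ℕ) : kap (K + 1) ≤ kap K := by
  unfold kap
  have h1 : (0 : ℝ) < (K + 1).factorial := by exact_mod_cast Nat.factorial_pos _
  have h2 : ((K + 1).factorial : ℝ) ≤ (K + 1 + 1).factorial := by
    exact_mod_cast Nat.factorial_le (by omega)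
  have h3 : (1 / (4 * (((K + 1 : ℕ) : ℝ) + 1))) ^ (K + 1 + 1) ≤ (1 / (4 * ((K : ℝ) + 1))) ^ (K + 1) := by
    have a1 : (1 / (4 * (((K + 1 : ℕ) : ℝ) + 1))) ≤ 1 / (4 * ((K : ℝ) + 1)) := by
      push_cast
      apply one_div_le_one_div_of_le (by positivity)
      linarith
    have a2 : 0 ≤ (1 / (4 * (((K + 1 : ℕ) : ℝ) + 1))) := by positivity
    have a3 : (1 / (4 * (((K + 1 : ℕ) : ℝ) + 1))) ≤ 1 := by
      rw [div_le_one (by positivity)]
      have : (0 : ℝ) ≤ ((K + 1 : ℕ) : ℝ) := Nat.cast_nonneg _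
      linarith
    calc (1 / (4 * (((K + 1 : ℕ) : ℝ) + 1))) ^ (K + 1 + 1) ≤
        (1 / (4 * (((K + 1 : ℕ) : ℝ) + 1))) ^ (K + 1) := pow_le_pow_of_le_one a2 a3 (by omega)
      _ ≤ _ := pow_le_pow_left₀ a2 a1 _
  calc _ ≤ (1 / (4 * ((K : ℝ) + 1))) ^ (K + 1) / (K + 1 + 1).factorial := by gcongr
    _ ≤ _ := by gcongr

theorem dlt_pos (A : ℕ) : 0 < dlt A := by
  rw [dlt_eq]
  have := kap_pos (2 * A + 3)
  positivity

theorem dlt_le (A : ℕ) : dlt A ≤ 1 / 32 := by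
  rw [dlt_eq]
  have := kap_le_one (2 * A + 3)
  linarith

open Classical in
theorem freq_of_count {Q : ℕ → Prop}
    (h : ∀ᶠ x : ℕ in atTop, (x : ℝ) ^ (1 - (1 / 2 : ℝ)) ≤ (((Icc 1 x).filter Q).card : ℝ)) :
    ∃ᶠ n : ℕ in atTop, Q n := by
  rw [frequently_atTop]
  intro N
  have h1 : ∀ᶠ x : ℕ in atTop, ((N : ℝ) + 1) < (x : ℝ) ^ (1 - (1 / 2 : ℝ)) := by
    have : Tendsto (fun x : ℕ => (x : ℝ) ^ (1 - (1 / 2 : ℝ))) atTop atTop :=
      (tendsto_rpow_atTop (by norm_num)).comp tendsto_natCast_atTop_atTop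
    exact this.eventually_gt_atTop _
  obtain ⟨x, h2, h3⟩ := (h.and h1).exists
  by_contra hcon
  push Not at hcon
  have h4 : (Icc 1 x).filter Q ⊆ Icc 1 N := by
    intro n hn
    rw [Finset.mem_filter, Finset.mem_Icc] at hn
    rw [Finset.mem_Icc]
    refine ⟨hn.1.1, ?_⟩
    by_contra h5
    exact hcon n (by omega) hn.2
  have h5 := Finset.card_le_card h4
  rw [Nat.card_Icc] at h5
  have h6 : (((Icc 1 x).filter Q).card : ℝ) ≤ N := by
    have : ((Icc 1 x).filter Q).card ≤ N := by omega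
    exact_mod_cast this
  linarith

theorem rich_any (A : ℕ) (h : ℝ → ℝ) (c : ℝ) (hc : 0 < c)
    (hh : ∀ᶠ x : ℝ in atTop, c ≤ h x ∧ h x ≤ (Real.log x) ^ A) :
    ∃ᶠ x : ℝ in atTop, 1 + dlt A ≤ Real.log x / h x *
      ((Nat.primeCounting ⌊x + h x⌋₊ : ℝ) - Nat.primeCounting ⌊x⌋₊) := by
  classical
  set δ := dlt A with hδ
  have hδ0 : 0 < δ := dlt_pos A
  have hδ1 : δ ≤ 1 / 32 := dlt_le A
  have hk : 2 * δ ≤ kap (2 * A + 2) / 8 := by
    rw [hδ, dlt_eq]
    have h1 := kap_anti (2 * A + 2)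
    rw [show 2 * A + 2 + 1 = 2 * A + 3 by ring] at h1
    have := kap_pos (2 * A + 2)
    linarith
  have hf := freq_of_count (rich_final A (2 * δ) (1 / 2) hk (by norm_num))
  set ε := min c 1 * (δ / 8) with hε
  have hε0 : 0 < ε := by positivity
  have hm1 : min c 1 ≤ 1 := min_le_right _ _
  have hmc : min c 1 ≤ c := min_le_left _ _
  have hm0 : 0 < min c 1 := lt_min hc one_pos
  have hε1 : ε < 1 := by
    rw [hε]; nlinarith
  have hεc : ε ≤ c * (δ / 8) := by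
    rw [hε]; gcongr
  rw [frequently_atTop] at hf ⊢
  intro M
  obtain ⟨x0, hx0⟩ := eventually_atTop.1 hh
  obtain ⟨x1, hx1⟩ := eventually_atTop.1 (Real.tendsto_log_atTop.eventually_ge_atTop (8 / δ))
  obtain ⟨n, hn1, hn2⟩ := hf ⌈max (max M x0) (max x1 4) + 1⌉₊
  have hn3 : max (max M x0) (max x1 4) + 1 ≤ n := (Nat.le_ceil _).trans (by exact_mod_cast hn1)
  have b1 : M ≤ max (max M x0) (max x1 4) := (le_max_left _ _).trans (le_max_left _ _)
  have b2 : x0 ≤ max (max M x0) (max x1 4) := (le_max_right _ _).trans (le_max_left _ _)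
  have b3 : x1 ≤ max (max M x0) (max x1 4) := (le_max_left _ _).trans (le_max_right _ _)
  have b4 : (4 : ℝ) ≤ max (max M x0) (max x1 4) := (le_max_right _ _).trans (le_max_right _ _)
  set x : ℝ := n - ε with hx
  refine ⟨x, by linarith, ?_⟩
  obtain ⟨h1, h2⟩ := hx0 x (by linarith)
  have h3 := hx1 n (by linarith)
  have hx4 : 4 ≤ x := by linarith
  have hlx : 0 < Real.log x := Real.log_pos (by linarith)
  have hxn : x ≤ n := by linarith
  have hlxn : Real.log x ≤ Real.log n := Real.log_le_log (by linarith) hxn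
  have hln : 0 < Real.log n := by linarith
  have hhx : 0 < h x := by linarith
  set y := h x - ε with hy
  have hy0 : 0 < y := by
    have : c * (δ / 8) < c := by nlinarith
    linarith
  have hyA : y ≤ (Real.log n) ^ A := by
    have : (Real.log x) ^ A ≤ (Real.log n) ^ A := pow_le_pow_left₀ hlx.le hlxn _
    linarith
  have h4 := hn2 y hy0 hyA
  have h5 : ⌊x⌋₊ = n - 1 := by
    have hn1' : 1 ≤ n := by
      have : (1 : ℝ) ≤ n := by linarith
      exact_mod_cast this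
    rw [Nat.floor_eq_iff (by linarith)]
    push_cast [hn1']
    constructor <;> linarith
  have h6 : x + h x = n + y := by rw [hx, hy]; ring
  rw [h5, h6]
  have h7 : Real.log x / h x * ((1 + 2 * δ) * (y / Real.log n)) ≤
      Real.log x / h x * ((Nat.primeCounting ⌊(n : ℝ) + y⌋₊ : ℝ) - Nat.primeCounting (n - 1)) := by
    gcongr
  refine le_trans ?_ h7
  have h8 : (1 - δ / 8) * Real.log n ≤ Real.log x := by
    have h9 : Real.log n - Real.log x ≤ 1 := by
      rw [← Real.log_div (by linarith) (by linarith)]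
      have h10 := Real.log_le_sub_one_of_pos (show (0 : ℝ) < n / x from
        div_pos (by linarith) (by linarith))
      have h11 : (n : ℝ) / x - 1 ≤ 1 := by
        rw [div_sub_one (by linarith), div_le_one (by linarith)]
        linarith
      linarith
    rw [div_le_iff₀ hδ0] at h3
    nlinarith
  have h9 : (1 - δ / 8) * h x ≤ y := by
    have : c * (δ / 8) ≤ h x * (δ / 8) := by gcongr
    linarith
  have h10 : (1 - δ / 8) * (1 - δ / 8) ≤ Real.log x / Real.log n * (y / h x) := by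
    apply mul_le_mul
    · rw [le_div_iff₀ hln]; exact h8
    · rw [le_div_iff₀ hhx]; exact h9
    · linarith
    · positivity
  have h12 : 1 + δ ≤ (1 + 2 * δ) * ((1 - δ / 8) * (1 - δ / 8)) := by
    have a1 : (1 - δ / 8) * (1 - δ / 8) = 1 - δ / 4 + δ / 8 * (δ / 8) := by ring
    have a2 : 0 ≤ δ / 8 * (δ / 8) := by positivity
    have a3 : δ * δ ≤ 1 / 32 * δ := mul_le_mul_of_nonneg_right hδ1 hδ0.le
    have a4 : (1 + 2 * δ) * (1 - δ / 4) ≤ (1 + 2 * δ) * ((1 - δ / 8) * (1 - δ / 8)) := by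
      rw [a1]
      apply mul_le_mul_of_nonneg_left _ (by linarith)
      linarith
    refine le_trans ?_ a4
    have a5 : (1 + 2 * δ) * (1 - δ / 4) = 1 + 7 / 4 * δ - 1 / 2 * (δ * δ) := by ring
    rw [a5]
    linarith
  calc 1 + δ ≤ (1 + 2 * δ) * ((1 - δ / 8) * (1 - δ / 8)) := h12
    _ ≤ (1 + 2 * δ) * (Real.log x / Real.log n * (y / h x)) := by gcongr
    _ = _ := by ring

theorem poor_any (A : ℕ) (h : ℝ → ℝ) (c : ℝ) (hc : 0 < c)
    (hh : ∀ᶠ x : ℝ in atTop, c ≤ h x ∧ h x ≤ (Real.log x) ^ A) :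
    ∃ᶠ x : ℝ in atTop, Real.log x / h x *
      ((Nat.primeCounting ⌊x + h x⌋₊ : ℝ) - Nat.primeCounting ⌊x⌋₊) ≤ 1 - dlt A := by
  classical
  set δ := dlt A with hδ
  have hδ0 : 0 < δ := dlt_pos A
  have hk : δ ≤ kap (2 * A + 3) / 16 := by
    rw [hδ, dlt_eq]
    have := kap_pos (2 * A + 3)
    linarith
  have hf := freq_of_count (poor_final A δ (1 / 2) hk (by norm_num))
  rw [frequently_atTop] at hf ⊢
  intro M
  obtain ⟨x0, hx0⟩ := eventually_atTop.1 hh
  obtain ⟨n, hn1, hn2⟩ := hf ⌈max (max M x0) 4⌉₊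
  have hn3 : max (max M x0) 4 ≤ n := (Nat.le_ceil _).trans (by exact_mod_cast hn1)
  have b1 : M ≤ max (max M x0) 4 := (le_max_left _ _).trans (le_max_left _ _)
  have b2 : x0 ≤ max (max M x0) 4 := (le_max_right _ _).trans (le_max_left _ _)
  have b4 : (4 : ℝ) ≤ max (max M x0) 4 := le_max_right _ _
  refine ⟨n, by linarith, ?_⟩
  obtain ⟨h1, h2⟩ := hx0 n (by linarith)
  have hln : 0 < Real.log n := Real.log_pos (by linarith)
  have hhx : 0 < h n := by linarith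
  have h4 := hn2 (h n) hhx h2
  rw [Nat.floor_natCast]
  calc Real.log n / h n * ((Nat.primeCounting ⌊(n : ℝ) + h n⌋₊ : ℝ) - Nat.primeCounting n)
      ≤ Real.log n / h n * ((1 - δ) * (h n / Real.log n)) := by gcongr
    _ = 1 - δ := by field_simp

open Classical in
theorem main (A : ℕ) :
    0 < dlt A ∧
    (∀ η : ℝ, 0 < η → ∀ᶠ X : ℕ in atTop, (X : ℝ) ^ (1 - η) ≤
      (((Icc 1 X).filter (fun n : ℕ => ∀ y : ℝ, 0 < y → y ≤ (Real.log n) ^ A →
        (1 + dlt A) * (y / Real.log n) ≤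
          (Nat.primeCounting ⌊(n : ℝ) + y⌋₊ : ℝ) - Nat.primeCounting (n - 1))).card : ℝ)) ∧
    (∀ η : ℝ, 0 < η → ∀ᶠ X : ℕ in atTop, (X : ℝ) ^ (1 - η) ≤
      (((Icc 1 X).filter (fun n : ℕ => ∀ y : ℝ, 0 < y → y ≤ (Real.log n) ^ A →
        Real.log n / y * ((Nat.primeCounting ⌊(n : ℝ) + y⌋₊ : ℝ) - Nat.primeCounting ⌊(n : ℝ)⌋₊) ≤
          1 - dlt A)).card : ℝ)) ∧
    (∀ (h : ℝ → ℝ) (c : ℝ), 0 < c → (∀ᶠ x : ℝ in atTop, c ≤ h x ∧ h x ≤ (Real.log x) ^ A) →
      (∃ᶠ x : ℝ in atTop, 1 + dlt A ≤ Real.log x / h x *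
        ((Nat.primeCounting ⌊x + h x⌋₊ : ℝ) - Nat.primeCounting ⌊x⌋₊)) ∧
      (∃ᶠ x : ℝ in atTop, Real.log x / h x *
        ((Nat.primeCounting ⌊x + h x⌋₊ : ℝ) - Nat.primeCounting ⌊x⌋₊) ≤ 1 - dlt A)) := by
  have hk1 := kap_pos (2 * A + 3)
  have hk : dlt A ≤ kap (2 * A + 2) / 8 := by
    rw [dlt_eq]
    have h1 := kap_anti (2 * A + 2)
    rw [show 2 * A + 2 + 1 = 2 * A + 3 by ring] at h1
    linarith
  have hk' : dlt A ≤ kap (2 * A + 3) / 16 := by
    rw [dlt_eq]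
    linarith
  refine ⟨dlt_pos A, fun η hη => rich_final A (dlt A) η hk hη, fun η hη => ?_,
    fun h c hc hh => ⟨rich_any A h c hc hh, poor_any A h c hc hh⟩⟩
  filter_upwards [poor_final A (dlt A) η hk' hη] with X hX
  refine hX.trans ?_
  have hsub : (Icc 1 X).filter (fun n => Poor (dlt A) A n) ⊆
      (Icc 1 X).filter (fun n : ℕ => ∀ y : ℝ, 0 < y → y ≤ (Real.log n) ^ A →
        Real.log n / y * ((Nat.primeCounting ⌊(n : ℝ) + y⌋₊ : ℝ) - Nat.primeCounting ⌊(n : ℝ)⌋₊) ≤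
          1 - dlt A) := by
    intro n hn
    rw [Finset.mem_filter] at hn ⊢
    refine ⟨hn.1, fun y hy0 hy => ?_⟩
    have h1 := hn.2 y hy0 hy
    have hn1 : 1 ≤ n := (Finset.mem_Icc.1 hn.1).1
    have hl0 : 0 ≤ Real.log n := Real.log_nonneg (by exact_mod_cast hn1)
    rw [Nat.floor_natCast]
    rcases hl0.eq_or_lt with h0 | h0
    · rw [← h0]
      have := dlt_le A
      simp only [zero_div, zero_mul]
      linarith
    · calc Real.log n / y * ((Nat.primeCounting ⌊(n : ℝ) + y⌋₊ : ℝ) - Nat.primeCounting n)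
          ≤ Real.log n / y * ((1 - dlt A) * (y / Real.log n)) := by gcongr
        _ = 1 - dlt A := by field_simp
  exact_mod_cast Finset.card_le_card hsub

end Pool.Agent.N914.MR
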